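import Pool.Agent.Lib.MP_becf51_an.Fej

/-! Self-adjoint unitary circulant matrices and their pairing with trigonometric polynomials. -/

namespace Pool.Agent.Lib.MP_becf51_an

open MeasureTheory AddCircle Complex Real Finset Matrix
open scoped ComplexConjugate ENNReal

/-- The nodes `s + l / (N + 1)`. -/
noncomputable def node (N : ℕ) (s : UnitAddCircle) (l : Fin (N + 1)) : UnitAddCircle :=
  s + (l : ℤ) • ((((N + 1 : ℕ) : ℝ)⁻¹ : ℝ) : UnitAddCircle)

lemma node_smul (N : ℕ) (s : UnitAddCircle) (l : Fin (N + 1)) :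
    ((N + 1 : ℕ) : ℤ) • (node N s l - s) = 0 := by
  rw [node, add_sub_cancel_left, smul_comm, smul_root (Nat.succ_ne_zero N), smul_zero]

lemma sum_node {N : ℕ} (s : UnitAddCircle) {m : ℤ} (hm : m.natAbs ≤ N) :
    ∑ l, zz (node N s l) ^ m = if m = 0 then ((N + 1 : ℕ) : ℂ) else 0 := by
  split_ifs with h
  · simp [h]
  · have hr := zz_root (Nat.succ_ne_zero N)
    set ω := zz ((((N + 1 : ℕ) : ℝ)⁻¹ : ℝ) : UnitAddCircle) with hω
    have e : ∀ l : Fin (N + 1), zz (node N s l) ^ m = zz s ^ m * (ω ^ m) ^ (l : ℕ) := by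
      intro l
      rw [node, zz_add, zz_zsmul, mul_zpow, ← _root_.zpow_natCast, ← _root_.zpow_mul,
        ← _root_.zpow_mul, mul_comm m]
    have h1 : ω ^ m ≠ 1 := fun h1 => h (Int.eq_zero_of_dvd_of_natAbs_lt_natAbs
      ((hr.zpow_eq_one_iff_dvd m).1 h1) (by omega))
    have h2 : (ω ^ m) ^ (N + 1) = 1 := by
      rw [← _root_.zpow_natCast, ← _root_.zpow_mul, mul_comm, _root_.zpow_mul, _root_.zpow_natCast,
        hr.pow_eq_one, _root_.one_zpow]
    simp only [e, ← mul_sum]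
    rw [Fin.sum_univ_eq_sum_range (fun l => (ω ^ m) ^ l), geom_sum_eq h1, h2, sub_self, zero_div,
      mul_zero]

/-- The circulant matrix with eigenvalues `ε l`. -/
noncomputable def circ (N : ℕ) (s : UnitAddCircle) (ε : Fin (N + 1) → ℝ) :
    Matrix (Fin (N + 1)) (Fin (N + 1)) ℂ :=
  of fun j k => ∑ l, (ε l : ℂ) / (N + 1 : ℕ) * zz (node N s l) ^ (-((j : ℤ) - (k : ℤ)))

lemma circ_herm (N : ℕ) (s : UnitAddCircle) (ε : Fin (N + 1) → ℝ) : (circ N s ε).IsHermitian := by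
  ext j k
  simp only [circ, conjTranspose_apply, of_apply, RCLike.star_def, map_sum, map_mul, map_div₀,
    conj_ofReal, map_natCast, conj_zpow, neg_sub]

lemma circ_norm (N : ℕ) (s : UnitAddCircle) {ε : Fin (N + 1) → ℝ} (hε : ∀ l, |ε l| = 1) :
    ‖toEuclideanCLM (n := Fin (N + 1)) (𝕜 := ℂ) (circ N s ε)‖ = 1 := by
  have h0 : ((N + 1 : ℕ) : ℂ) ≠ 0 := Nat.cast_ne_zero.2 (Nat.succ_ne_zero N)
  let V : Matrix (Fin (N + 1)) (Fin (N + 1)) ℂ := of fun j l => zz (node N s l) ^ (-(j : ℤ))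
  let W : Matrix (Fin (N + 1)) (Fin (N + 1)) ℂ :=
    of fun l k => ((N + 1 : ℕ) : ℂ)⁻¹ * zz (node N s l) ^ (k : ℤ)
  have e : ∀ (j k l : Fin (N + 1)), V j l * W l k =
      ((N + 1 : ℕ) : ℂ)⁻¹ * zz (node N s l) ^ (-((j : ℤ) - (k : ℤ))) := by
    intro j k l
    simp only [V, W, of_apply]
    rw [neg_sub, sub_eq_add_neg, zpow_add₀ (zz_ne _)]
    ring
  have h1 : V * W = 1 := by
    ext j k
    simp only [Matrix.mul_apply, e, ← mul_sum]
    rw [sum_node s (by omega), one_apply]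
    by_cases h : j = k
    · rw [if_pos h, if_pos (by rw [h, sub_self, neg_zero]), inv_mul_cancel₀ h0]
    · rw [if_neg h, if_neg (fun h' => h (Fin.ext (by omega))), mul_zero]
  have h2 : W * V = 1 := mul_eq_one_comm.1 h1
  have h3 : circ N s ε = V * diagonal (fun l => (ε l : ℂ)) * W := by
    ext j k
    rw [Matrix.mul_apply]
    simp only [circ, of_apply, mul_diagonal]
    refine sum_congr rfl fun l _ => ?_
    rw [mul_right_comm, e]
    ring
  have h4 : diagonal (fun l => (ε l : ℂ)) * diagonal (fun l => (ε l : ℂ)) = 1 := by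
    rw [diagonal_mul_diagonal, ← diagonal_one]
    congr 1
    ext l
    rw [← ofReal_mul, ← abs_mul_abs_self, hε, mul_one, ofReal_one]
  have h5 : star (circ N s ε) * circ N s ε = 1 := by
    rw [star_eq_conjTranspose, (circ_herm N s ε).eq, h3]
    calc _ = V * (diagonal (fun l => (ε l : ℂ)) * (W * V) * diagonal (fun l => (ε l : ℂ))) * W := by
          simp only [Matrix.mul_assoc]
      _ = 1 := by rw [h2, Matrix.mul_one, h4, Matrix.mul_one, h1]
  have h6 := CStarRing.norm_star_mul_self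
    (x := toEuclideanCLM (n := Fin (N + 1)) (𝕜 := ℂ) (circ N s ε))
  rw [← map_star, ← map_mul, h5, map_one, norm_one] at h6
  nlinarith [norm_nonneg (toEuclideanCLM (n := Fin (N + 1)) (𝕜 := ℂ) (circ N s ε))]

lemma circ_pair {N : ℕ} {s : UnitAddCircle} {ε : Fin (N + 1) → ℝ} {f : Lp ℂ ∞ mu}
    (hf : ∀ j k : Fin (N + 1), fourierCoeff f ((j : ℤ) - (k : ℤ)) = circ N s ε j k)
    (b : ℤ → ℂ) (t : ℤ) (hb : ∀ m : ℤ, m.natAbs ≤ N → b m = 0 ∨ (m + t).natAbs ≤ N) :
    ∫ x, f x * (fej (N + 1) b x * zz x ^ t) ∂mu =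
      ∑ l, (ε l : ℂ) / (N + 1 : ℕ) * (fej (N + 1) b (node N s l) * zz (node N s l) ^ t) := by
  have h1 : ∀ m : ℤ, m.natAbs ≤ N → ∫ x, f x * zz x ^ m ∂mu =
      ∑ l, (ε l : ℂ) / (N + 1 : ℕ) * zz (node N s l) ^ m := by
    intro m hm
    have := hf ⟨(-m).toNat, by omega⟩ ⟨m.toNat, by omega⟩
    simp only [circ, of_apply] at this
    rw [show (((-m).toNat : ℕ) : ℤ) - (m.toNat : ℕ) = -m by omega, neg_neg, ← coeff_eq] at this
    simpa only [mul_comm] using this
  have h2 : ∀ j ∈ range (N + 1), ∀ k ∈ range (N + 1),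
      b ((j : ℤ) - k) * ∫ y, f y * zz y ^ ((j : ℤ) - k + t) ∂mu =
        ∑ l, (ε l : ℂ) / (N + 1 : ℕ) *
          (b ((j : ℤ) - k) * zz (node N s l) ^ ((j : ℤ) - k) * zz (node N s l) ^ t) := by
    intro j hj k hk
    rw [mem_range] at hj hk
    rcases hb ((j : ℤ) - k) (by omega) with h | h
    · simp [h]
    · rw [h1 _ h, mul_sum]
      refine sum_congr rfl fun l _ => ?_
      rw [zpow_add₀ (zz_ne _)]
      ring
  rw [int_mul_fej (integrable_Lp f), sum_congr rfl fun j hj => sum_congr rfl (h2 j hj)]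
  simp only [fej, mul_sum, sum_mul]
  rw [sum_comm (s := univ)]
  refine sum_congr rfl fun j _ => ?_
  rw [sum_comm (s := univ)]
  exact sum_congr rfl fun k _ => sum_congr rfl fun l _ => by ring

end Pool.Agent.Lib.MP_becf51_an
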