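import Pool.Agent.Lib.MP_becf51_an.Fej

/-! The conjugate Fejer kernel has a large mean modulus. -/

namespace Pool.Agent.Lib.MP_becf51_an

open MeasureTheory AddCircle Complex Real Finset
open scoped ComplexConjugate

/-- Coefficients carried by the negative integers. -/
noncomputable def bb (m : ℤ) : ℂ := if m < 0 then 2 * I else 0

lemma cont_re (n : ℕ) : Continuous fun x => (fej n bb x).re :=
  continuous_re.comp (continuous_fej n bb)

lemma cont_im (n : ℕ) : Continuous fun x => (fej n bb x).im :=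
  continuous_im.comp (continuous_fej n bb)

lemma im_bb {n : ℕ} (hn : n ≠ 0) (x : UnitAddCircle) :
    ((fej n bb x).im : ℂ) = fej n (fun _ => 1) x - 1 := by
  have h : fej n bb x - conj (fej n bb x) = 2 * I * (fej n (fun _ => 1) x - 1) := by
    have h0 : fej n (fun _ => 1) x - 1 = fej n (fun m => 1 - if m = 0 then 1 else 0) x := by
      rw [fej_sub, fej_delta hn]
    rw [fej_conj, ← fej_sub, h0, ← fej_const_mul]
    congr 1
    ext m
    unfold bb
    rcases lt_trichotomy m 0 with h | h | h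
    · rw [if_pos h, if_neg (by omega), if_neg (by omega)]
      simp
    · simp [h]
    · rw [if_neg (by omega), if_pos (by omega), if_neg (by omega)]
      simp [map_ofNat]
  rw [sub_conj] at h
  push_cast at h
  have h2 : (2 * I : ℂ) ≠ 0 := mul_ne_zero two_ne_zero I_ne_zero
  exact mul_left_cancel₀ h2 (by linear_combination h)

lemma int_im_bb {n : ℕ} (hn : n ≠ 0) : ∫ x, |(fej n bb x).im| ∂mu ≤ 2 := by
  have c1 := continuous_fej n (fun _ => 1)
  have h1 : ∫ x, ‖fej n (fun _ => 1) x‖ ∂mu = 1 := by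
    apply ofReal_injective
    have := fej_coeff n (fun _ => 1) 0
    simp only [neg_zero, zpow_zero, mul_one, one_mul, Int.natAbs_zero, Nat.sub_zero] at this
    rw [← integral_complex_ofReal]
    simp only [fej_one_pos]
    rw [this, div_self (Nat.cast_ne_zero.2 hn), ofReal_one]
  have h2 : ∫ x, ‖fej n (fun _ => 1) x‖ + 1 ∂mu = 2 := by
    rw [integral_add (integrable_of_continuous c1.norm) (integrable_const _), h1]
    norm_num
  rw [← h2]
  refine integral_mono (integrable_of_continuous (cont_im n).abs)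
    (integrable_of_continuous (by fun_prop)) fun x => ?_
  have := norm_sub_le (fej n (fun _ => 1) x) 1
  rwa [← im_bb hn, norm_real, Real.norm_eq_abs, norm_one] at this

lemma saw {m : ℤ} (hm : m ≠ 0) :
    ∫ t in (0 : ℝ)..1, (1 - 2 * t : ℂ) * zz (t : UnitAddCircle) ^ m = I / (π * m) := by
  have hp : (π : ℂ) ≠ 0 := ofReal_ne_zero.2 Real.pi_ne_zero
  have hm' : (m : ℂ) ≠ 0 := Int.cast_ne_zero.2 hm
  set c : ℂ := m * (2 * π * I) with hc
  have c0 : c ≠ 0 := by simp [hc, hp, hm']
  have e : ∀ t : ℝ, zz (t : UnitAddCircle) ^ m = cexp (c * t) := fun t => by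
    rw [zz_coe, ← Complex.exp_int_mul, hc, mul_assoc (m : ℂ)]
  simp only [e]
  have hF : ∀ t : ℝ, HasDerivAt (fun t : ℝ => (1 - 2 * t : ℂ) * cexp (c * t) / c +
      2 * cexp (c * t) / c ^ 2) ((1 - 2 * t : ℂ) * cexp (c * t)) t := by
    intro t
    have h1 : HasDerivAt (fun z : ℂ => cexp (c * z)) (cexp (c * t) * (c * 1)) t :=
      ((hasDerivAt_id (t : ℂ)).const_mul c).cexp
    have h2 : HasDerivAt (fun z : ℂ => 1 - 2 * z) (-(2 * 1)) t :=
      ((hasDerivAt_id (t : ℂ)).const_mul 2).const_sub 1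
    have h3 := (((h2.mul h1).div_const c).add ((h1.const_mul 2).div_const (c ^ 2))).comp_ofReal
    refine h3.congr_deriv ?_
    field_simp
    ring
  rw [intervalIntegral.integral_eq_sub_of_hasDerivAt (fun t _ => hF t)
    (Continuous.intervalIntegrable (by fun_prop) _ _)]
  have h1 : cexp c = 1 := exp_int_mul_two_pi_mul_I m
  simp only [ofReal_one, ofReal_zero, mul_one, mul_zero, Complex.exp_zero, h1]
  rw [hc]
  field_simp
  linear_combination (-2 * (m : ℂ) * π * I) * I_mul_I

lemma sum_harm (n : ℕ) : ∑ k ∈ range n, ∑ i ∈ range k, (1 / (i + 1) : ℝ) =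
    n * (∑ i ∈ range n, (1 / (i + 1) : ℝ) - 1) := by
  induction n with
  | zero => simp
  | succ n ih =>
    rw [sum_range_succ, ih, sum_range_succ]
    push_cast
    field_simp
    ring

lemma int_saw_bb {n : ℕ} (hn : n ≠ 0) :
    ∫ t in (0 : ℝ)..1, (1 - 2 * t : ℂ) * fej n bb (t : UnitAddCircle) =
      ((2 / π * (∑ i ∈ range n, (1 / (i + 1) : ℝ) - 1) : ℝ) : ℂ) := by
  have hp : (π : ℂ) ≠ 0 := ofReal_ne_zero.2 Real.pi_ne_zero
  have hn' : (n : ℝ) ≠ 0 := Nat.cast_ne_zero.2 hn
  have hi : ∀ (a : ℂ) (m : ℤ), Continuous fun t : ℝ =>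
      a * ((1 - 2 * t : ℂ) * zz (t : UnitAddCircle) ^ m) := fun a m =>
    continuous_const.mul (Continuous.mul (by fun_prop)
      ((continuous_zpow m).comp (AddCircle.continuous_mk' 1)))
  have e : ∀ t : ℝ, (1 - 2 * t : ℂ) * fej n bb (t : UnitAddCircle) =
      (n : ℂ)⁻¹ * ∑ k ∈ range n, ∑ j ∈ range n,
        bb ((j : ℤ) - k) * ((1 - 2 * t : ℂ) * zz (t : UnitAddCircle) ^ ((j : ℤ) - k)) := by
    intro t
    rw [fej, sum_comm]
    simp only [mul_sum]
    exact sum_congr rfl fun j _ => sum_congr rfl fun k _ => by ring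
  have h1 : ∀ k ∈ range n, ∫ t in (0 : ℝ)..1, ∑ j ∈ range n,
      bb ((j : ℤ) - k) * ((1 - 2 * t : ℂ) * zz (t : UnitAddCircle) ^ ((j : ℤ) - k)) =
      ((2 / π * ∑ i ∈ range k, (1 / (i + 1) : ℝ) : ℝ) : ℂ) := by
    intro k hk
    rw [mem_range] at hk
    rw [intervalIntegral.integral_finsetSum fun j _ => (hi _ _).intervalIntegrable _ _,
      ← sum_range_reflect (fun i => (1 / (i + 1) : ℝ)), mul_sum, ofReal_sum,
      ← sum_subset (range_subset_range.2 hk.le)]
    · refine sum_congr rfl fun j hj => ?_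
      rw [mem_range] at hj
      have h2 : ((k - 1 - j : ℕ) : ℝ) + 1 = k - j := by
        rw [eq_sub_iff_add_eq]
        norm_cast
        omega
      have h3 : (k : ℂ) - j ≠ 0 := by
        rw [sub_ne_zero]
        exact_mod_cast hj.ne'
      have h4 : (j : ℂ) - k ≠ 0 := fun h => h3 (by linear_combination -h)
      rw [intervalIntegral.integral_const_mul, saw (by omega), bb, if_pos (by omega), h2]
      push_cast
      field_simp
      linear_combination ((k : ℂ) - j) * I_mul_I
    · intro j _ hj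
      rw [mem_range] at hj
      rw [bb, if_neg (by omega)]
      simp
  simp only [e]
  rw [intervalIntegral.integral_const_mul, intervalIntegral.integral_finsetSum fun k _ =>
    (continuous_finsetSum _ fun j _ => hi _ _).intervalIntegrable _ _, sum_congr rfl h1,
    ← ofReal_sum, ← mul_sum, sum_harm, ← ofReal_natCast, ← ofReal_inv, ← ofReal_mul]
  congr 1
  field_simp

lemma int_re_bb {n : ℕ} (hn : n ≠ 0) :
    2 / π * (∑ i ∈ range n, (1 / (i + 1) : ℝ) - 1) - 2 ≤ ∫ x, |(fej n bb x).re| ∂mu := by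
  have c2 := continuous_fej n bb
  have c3 : Continuous fun t : ℝ => fej n bb (t : UnitAddCircle) :=
    c2.comp (AddCircle.continuous_mk' 1)
  have h1 : ∫ x, ‖fej n bb x‖ ∂mu = ∫ t in (0 : ℝ)..1, ‖fej n bb (t : UnitAddCircle)‖ := by
    rw [integral_haarAddCircle, ← UnitAddCircle.intervalIntegral_preimage 0]
    simp
  have h2 : ‖∫ t in (0 : ℝ)..1, (1 - 2 * t : ℂ) * fej n bb (t : UnitAddCircle)‖ ≤
      ∫ t in (0 : ℝ)..1, ‖fej n bb (t : UnitAddCircle)‖ := by
    refine intervalIntegral.norm_integral_le_of_norm_le zero_le_one (.of_forall fun t ht => ?_)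
      (c3.norm.intervalIntegrable _ _)
    have e : (1 - 2 * t : ℂ) = ((1 - 2 * t : ℝ) : ℂ) := by push_cast; rfl
    rw [norm_mul, e, norm_real, Real.norm_eq_abs]
    exact mul_le_of_le_one_left (norm_nonneg _) (abs_le.2 ⟨by linarith [ht.2], by linarith [ht.1]⟩)
  rw [int_saw_bb hn, norm_real, Real.norm_eq_abs, ← h1] at h2
  have h3 : ∫ x, ‖fej n bb x‖ ∂mu ≤ ∫ x, |(fej n bb x).re| + |(fej n bb x).im| ∂mu :=
    integral_mono (integrable_of_continuous c2.norm)
      (integrable_of_continuous ((cont_re n).abs.add (cont_im n).abs))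
      fun x => norm_le_abs_re_add_abs_im _
  rw [integral_add (integrable_of_continuous (cont_re n).abs)
    (integrable_of_continuous (cont_im n).abs)] at h3
  linarith [int_im_bb hn, le_abs_self (2 / π * (∑ i ∈ range n, (1 / (i + 1) : ℝ) - 1))]

end Pool.Agent.Lib.MP_becf51_an
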