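import Mathlib

/-! Extension of a positive Toeplitz matrix to a positive definite sequence. -/

namespace Pool.Agent.Lib.MP_becf51_an

open Matrix Finset
open scoped ComplexConjugate InnerProductSpace

lemma exists_isometry {E ι : Type} [NormedAddCommGroup E] [InnerProductSpace ℂ E]
    [FiniteDimensional ℂ E] [Fintype ι] (v w : ι → E) (h : ∀ i j, ⟪v i, v j⟫_ℂ = ⟪w i, w j⟫_ℂ) :
    ∃ U : E →ₗᵢ[ℂ] E, ∀ i, U (v i) = w i := by
  classical
  let Lv := Fintype.linearCombination ℂ v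
  let Lw := Fintype.linearCombination ℂ w
  have hn : ∀ c, ‖Lw c‖ = ‖Lv c‖ := by
    intro c
    rw [norm_eq_sqrt_re_inner (𝕜 := ℂ), norm_eq_sqrt_re_inner (𝕜 := ℂ)]
    simp only [Lv, Lw, Fintype.linearCombination_apply, sum_inner, inner_sum, inner_smul_left,
      inner_smul_right, h]
  have hk : LinearMap.ker Lv ≤ LinearMap.ker Lw := fun c hc => by
    rw [LinearMap.mem_ker] at hc ⊢
    rw [← norm_eq_zero, hn, hc, norm_zero]
  let L : LinearMap.range Lv →ₗ[ℂ] E :=
    ((LinearMap.ker Lv).liftQ Lw hk).comp Lv.quotKerEquivRange.symm.toLinearMap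
  have hL : ∀ c, L ⟨Lv c, c, rfl⟩ = Lw c := fun c => by
    simp only [L, LinearMap.comp_apply, LinearEquiv.coe_coe]
    rw [LinearMap.quotKerEquivRange_symm_apply_image, Submodule.mkQ_apply, Submodule.liftQ_apply]
  let L' : LinearMap.range Lv →ₗᵢ[ℂ] E := ⟨L, by
    rintro ⟨_, c, rfl⟩
    rw [hL, hn]
    rfl⟩
  refine ⟨L'.extend, fun i => ?_⟩
  have h1 := L'.extend_apply ⟨Lv (Pi.single i 1), _, rfl⟩
  have h2 : L' ⟨Lv (Pi.single i 1), _, rfl⟩ = Lw (Pi.single i 1) := hL _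
  rw [h2] at h1
  simpa [Lv, Lw, Fintype.linearCombination_apply_single] using h1

lemma exists_gram {n : ℕ} (A : Matrix (Fin n) (Fin n) ℂ) (hA : A.IsHermitian) :
    ∃ v : Fin n → EuclideanSpace ℂ (Fin n), ∀ j k, ⟪v j, v k⟫_ℂ =
      (if j = k then ((‖toEuclideanCLM (n := Fin n) (𝕜 := ℂ) A‖ : ℝ) : ℂ) else 0) + A j k := by
  set T := toEuclideanCLM (n := Fin n) (𝕜 := ℂ) A with hT
  have h1 : IsSelfAdjoint T := by
    rw [IsSelfAdjoint, hT, ← map_star, star_eq_conjTranspose, hA.eq]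
  have h2 : 0 ≤ algebraMap ℝ _ ‖T‖ + T := by
    have := h1.neg_algebraMap_norm_le_self
    rwa [neg_le_iff_add_nonneg'] at this
  obtain ⟨S, hS⟩ := CStarAlgebra.nonneg_iff_eq_star_mul_self.1 h2
  refine ⟨fun j => S (EuclideanSpace.single j 1), fun j k => ?_⟩
  rw [← ContinuousLinearMap.adjoint_inner_right, ← ContinuousLinearMap.star_eq_adjoint,
    ← mul_apply_eq_comp, ← hS, EuclideanSpace.inner_single_left, map_one, one_mul,
    _root_.add_apply, PiLp.add_apply]
  congr 1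
  · rw [Algebra.algebraMap_eq_smul_one]
    by_cases h : j = k <;> simp [h]
  · change ∑ i, A j i * (EuclideanSpace.single k (1 : ℂ) : EuclideanSpace ℂ (Fin n)) i = _
    simp

theorem exists_ext {N : ℕ} (A : Matrix (Fin (N + 1)) (Fin (N + 1)) ℂ) (hA : A.IsHermitian)
    {a : ℤ → ℂ} (ha : ∀ j k : Fin (N + 1), A j k = a ((j : ℤ) - (k : ℤ))) :
    ∃ (b : ℤ → ℂ) (e : ℕ → EuclideanSpace ℂ (Fin (N + 1))),
      (∀ j k : ℕ, b ((j : ℤ) - k) = ⟪e j, e k⟫_ℂ) ∧ ∀ m : ℤ, m.natAbs ≤ N → b m =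
        (if m = 0 then ((‖toEuclideanCLM (n := Fin (N + 1)) (𝕜 := ℂ) A‖ : ℝ) : ℂ) else 0) + a m := by
  obtain ⟨v, hv⟩ := exists_gram A hA
  obtain ⟨U, hU⟩ := exists_isometry (fun i : Fin N => v i.castSucc) (fun i => v i.succ)
    (fun i j => by
      rw [hv, hv, ha, ha]
      simp)
  let e : ℕ → EuclideanSpace ℂ (Fin (N + 1)) := fun k => U^[k] (v 0)
  have he : ∀ k (hk : k < N + 1), e k = v ⟨k, hk⟩ := by
    intro k
    induction k with
    | zero => intro _; rfl
    | succ k ih =>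
      intro hk
      have h1 : e (k + 1) = U (e k) := Function.iterate_succ_apply' _ _ _
      rw [h1, ih (by omega)]
      exact hU ⟨k, by omega⟩
  have hs : ∀ t j k, ⟪e (j + t), e (k + t)⟫_ℂ = ⟪e j, e k⟫_ℂ := by
    intro t j k
    induction t with
    | zero => rfl
    | succ t ih =>
      have h1 : ∀ l, e (l + (t + 1)) = U (e (l + t)) := fun l => Function.iterate_succ_apply' _ _ _
      rw [h1, h1, U.inner_map_map, ih]
  refine ⟨fun m => ⟪e m.toNat, e (-m).toNat⟫_ℂ, e, fun j k => ?_, fun m hm => ?_⟩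
  · beta_reduce
    rw [← hs (min j k), show ((j : ℤ) - k).toNat + min j k = j by omega,
      show (-((j : ℤ) - k)).toNat + min j k = k by omega]
  · beta_reduce
    rw [he m.toNat (by omega), he (-m).toNat (by omega), hv, ha]
    congr 1
    · simp only [Fin.mk.injEq]
      congr 1
      exact propext (by omega)
    · congr 1
      simp only
      omega

end Pool.Agent.Lib.MP_becf51_an
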