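import Pool.Agent.Lib.MP_becf51_an.Main

/-! Fejer means of a two-sided sequence. -/

namespace Pool.Agent.Lib.MP_becf51_an

open MeasureTheory AddCircle Complex Real Finset
open scoped ComplexConjugate InnerProductSpace

/-- The Fejer mean of order `M` of the formal series with coefficients `b`. -/
noncomputable def fej (M : ℕ) (b : ℤ → ℂ) (x : UnitAddCircle) : ℂ :=
  (M : ℂ)⁻¹ * ∑ j ∈ range M, ∑ k ∈ range M, b ((j : ℤ) - k) * zz x ^ ((j : ℤ) - k)

lemma continuous_fej (M : ℕ) (b : ℤ → ℂ) : Continuous (fej M b) := by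
  unfold fej
  refine continuous_const.mul (continuous_finsetSum _ fun j _ => continuous_finsetSum _ fun k _ => ?_)
  exact continuous_const.mul (continuous_zpow _)

lemma zz_sub (x y : UnitAddCircle) : zz (x - y) = zz x * (zz y)⁻¹ := by
  rw [eq_mul_inv_iff_mul_eq₀ (zz_ne y), ← zz_add, sub_add_cancel]

lemma zz_zsmul (n : ℤ) (x : UnitAddCircle) : zz (n • x) = zz x ^ n := by
  rw [← fourier_eq_zpow, zz, fourier_apply, fourier_apply, one_smul]

lemma cnt_eq (M : ℕ) (m : ℤ) :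
    ∑ j ∈ range M, ∑ k ∈ range M, (if (j : ℤ) - k = m then (1 : ℂ) else 0) =
      ((M - m.natAbs : ℕ) : ℂ) := by
  have h1 : ∀ j ∈ range M, ∑ k ∈ range M, (if (j : ℤ) - k = m then (1 : ℂ) else 0) =
      if j ∈ Ico m.toNat (M - (-m).toNat) then 1 else 0 := by
    intro j hj
    rw [mem_range] at hj
    split_ifs with h
    · rw [mem_Ico] at h
      rw [sum_eq_single ((j : ℤ) - m).toNat, if_pos (by omega)]
      · intro k _ hk
        exact if_neg (by omega)
      · intro hk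
        exact absurd (mem_range.2 (by omega)) hk
    · rw [mem_Ico] at h
      exact sum_eq_zero fun k hk => if_neg (by rw [mem_range] at hk; omega)
  rw [sum_congr rfl h1, sum_ite_mem, sum_const, nsmul_eq_mul, mul_one,
    inter_eq_right.2 (fun j hj => by rw [mem_Ico] at hj; rw [mem_range]; omega), Nat.card_Ico]
  congr 1
  omega

lemma int_mul_fej {K : UnitAddCircle → ℂ} (hK : Integrable K mu) (M : ℕ) (b : ℤ → ℂ) (t : ℤ) :
    ∫ y, K y * (fej M b y * zz y ^ t) ∂mu = (M : ℂ)⁻¹ * ∑ j ∈ range M, ∑ k ∈ range M,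
      b ((j : ℤ) - k) * ∫ y, K y * zz y ^ ((j : ℤ) - k + t) ∂mu := by
  have hi : ∀ m : ℤ, Integrable (fun y => K y * zz y ^ m) mu := fun m =>
    hK.mul_bdd (c := 1) (continuous_zpow m).aestronglyMeasurable
      (Filter.Eventually.of_forall fun y => by rw [norm_zpow, norm_zz, one_zpow])
  have e : ∀ y, K y * (fej M b y * zz y ^ t) = (M : ℂ)⁻¹ * ∑ j ∈ range M, ∑ k ∈ range M,
      b ((j : ℤ) - k) * (K y * zz y ^ ((j : ℤ) - k + t)) := by
    intro y
    simp only [fej, zpow_add₀ (zz_ne y), mul_sum, sum_mul]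
    exact sum_congr rfl fun j _ => sum_congr rfl fun k _ => by ring
  simp_rw [e]
  rw [integral_const_mul, integral_finsetSum _ fun j _ =>
    integrable_finsetSum _ fun k _ => (hi _).const_mul _]
  congr 1
  refine sum_congr rfl fun j _ => ?_
  rw [integral_finsetSum _ fun k _ => (hi _).const_mul _]
  simp only [integral_const_mul]

lemma fej_coeff (M : ℕ) (b : ℤ → ℂ) (m : ℤ) :
    ∫ y, fej M b y * zz y ^ (-m) ∂mu = b m * ((M - m.natAbs : ℕ) : ℂ) / M := by
  have h := int_mul_fej (K := fun _ => 1) (integrable_const _) M b (-m)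
  simp only [one_mul, int_zpow] at h
  rw [h, ← cnt_eq, div_eq_inv_mul, mul_sum _ _ (b m)]
  congr 1
  refine sum_congr rfl fun j _ => ?_
  rw [mul_sum]
  refine sum_congr rfl fun k _ => ?_
  by_cases h : (j : ℤ) - k = m
  · rw [if_pos h, if_pos (by omega), h]
  · rw [if_neg h, if_neg (by omega), mul_zero, mul_zero]

lemma fej_conv {K : UnitAddCircle → ℂ} (hK : Integrable K mu) (M : ℕ) (b : ℤ → ℂ)
    (x : UnitAddCircle) : ∫ y, K y * fej M b (x - y) ∂mu =
      fej M (fun m => b m * ∫ y, K y * zz y ^ (-m) ∂mu) x := by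
  have h := int_mul_fej hK M (fun m => b (-m) * zz x ^ (-m)) 0
  have e : ∀ y, fej M b (x - y) = fej M (fun m => b (-m) * zz x ^ (-m)) y * zz y ^ (0 : ℤ) := by
    intro y
    rw [zpow_zero, mul_one, fej, fej, sum_comm]
    congr 1
    refine sum_congr rfl fun j _ => sum_congr rfl fun k _ => ?_
    rw [zz_sub, mul_zpow, inv_zpow', neg_sub, neg_sub, mul_assoc]
  simp_rw [e]
  rw [h, fej, sum_comm]
  congr 1
  refine sum_congr rfl fun j _ => sum_congr rfl fun k _ => ?_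
  rw [neg_sub, neg_sub, add_zero]
  ring

lemma fej_add (M : ℕ) (b c : ℤ → ℂ) (x : UnitAddCircle) :
    fej M (fun m => b m + c m) x = fej M b x + fej M c x := by
  simp only [fej, add_mul, sum_add_distrib, mul_add]

lemma fej_sub (M : ℕ) (b c : ℤ → ℂ) (x : UnitAddCircle) :
    fej M (fun m => b m - c m) x = fej M b x - fej M c x := by
  simp only [fej, sub_mul, sum_sub_distrib, mul_sub]

lemma fej_const_mul (M : ℕ) (a : ℂ) (b : ℤ → ℂ) (x : UnitAddCircle) :
    fej M (fun m => a * b m) x = a * fej M b x := by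
  simp only [fej, mul_sum]
  exact sum_congr rfl fun j _ => sum_congr rfl fun k _ => by ring

lemma fej_delta {M : ℕ} (hM : M ≠ 0) (c : ℂ) (x : UnitAddCircle) :
    fej M (fun m => if m = 0 then c else 0) x = c := by
  have h := cnt_eq M 0
  have h0 : (M : ℂ) ≠ 0 := Nat.cast_ne_zero.2 hM
  have e : ∀ j k : ℕ, (if (j : ℤ) - k = 0 then c else 0) * zz x ^ ((j : ℤ) - k) =
      c * (if (j : ℤ) - k = 0 then 1 else 0) := by
    intro j k
    split_ifs with h
    · rw [h, zpow_zero]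
    · rw [zero_mul, mul_zero]
  simp only [fej, e, ← mul_sum]
  rw [h]
  simp only [Int.natAbs_zero, Nat.sub_zero]
  field_simp

lemma conj_zpow (x : UnitAddCircle) (m : ℤ) : conj (zz x ^ m) = zz x ^ (-m) := by
  rw [map_zpow₀, conj_zz, inv_zpow']

lemma fej_conj (M : ℕ) (b : ℤ → ℂ) (x : UnitAddCircle) :
    conj (fej M b x) = fej M (fun m => conj (b (-m))) x := by
  rw [fej, fej, sum_comm]
  simp only [map_mul, map_sum, map_inv₀, map_natCast, conj_zpow, neg_sub]

lemma fej_pos {E : Type} [NormedAddCommGroup E] [InnerProductSpace ℂ E] {e : ℕ → E} {b : ℤ → ℂ}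
    (h : ∀ j k : ℕ, b ((j : ℤ) - k) = ⟪e j, e k⟫_ℂ) (M : ℕ) (x : UnitAddCircle) :
    ((‖fej M b x‖ : ℝ) : ℂ) = fej M b x := by
  have h1 : fej M b x =
      (((M : ℝ)⁻¹ * ‖∑ k ∈ range M, zz x ^ (-(k : ℤ)) • e k‖ ^ 2 : ℝ) : ℂ) := by
    have h2 : ∀ v : E, ⟪v, v⟫_ℂ = ((‖v‖ : ℝ) : ℂ) ^ 2 := fun v => inner_self_eq_norm_sq_to_K v
    rw [ofReal_mul, ofReal_pow, ← h2, sum_inner, fej]
    push_cast
    congr 1
    refine sum_congr rfl fun j _ => ?_
    rw [inner_sum]
    refine sum_congr rfl fun k _ => ?_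
    rw [inner_smul_left, inner_smul_right, h, conj_zpow, neg_neg, sub_eq_add_neg,
      zpow_add₀ (zz_ne x)]
    ring
  rw [h1, norm_real, Real.norm_of_nonneg (by positivity)]

lemma fej_one_pos (M : ℕ) (x : UnitAddCircle) :
    ((‖fej M (fun _ => 1) x‖ : ℝ) : ℂ) = fej M (fun _ => 1) x :=
  fej_pos (E := ℂ) (e := fun _ => 1) (fun _ _ => by simp) M x

lemma zz_root {n : ℕ} (hn : n ≠ 0) :
    IsPrimitiveRoot (zz (((n : ℝ)⁻¹ : ℝ) : UnitAddCircle)) n := by
  rw [zz_coe]
  have := Complex.isPrimitiveRoot_exp n hn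
  rwa [div_eq_mul_inv, ← ofReal_natCast, ← ofReal_inv] at this

lemma smul_root {n : ℕ} (hn : n ≠ 0) : (n : ℤ) • (((n : ℝ)⁻¹ : ℝ) : UnitAddCircle) = 0 := by
  rw [← AddCircle.coe_zsmul, zsmul_eq_mul, Int.cast_natCast,
    mul_inv_cancel₀ (Nat.cast_ne_zero.2 hn), AddCircle.coe_period]

lemma int_dil {E : Type} [NormedAddCommGroup E] [NormedSpace ℝ E] {n : ℕ} (hn : n ≠ 0)
    {G : UnitAddCircle → E} (hG : AEStronglyMeasurable G mu) :
    ∫ y, G ((n : ℤ) • y) ∂mu = ∫ y, G y ∂mu := by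
  have h := Measure.measurePreserving_zsmul mu (n := (n : ℤ)) (Int.natCast_ne_zero.2 hn)
  rw [← integral_map h.measurable.aemeasurable (by rwa [h.map_eq]), h.map_eq]

lemma int_dil_zero {n : ℕ} (hn : n ≠ 0) (G : UnitAddCircle → ℂ) {l : ℤ} (hl : ¬ (n : ℤ) ∣ l) :
    ∫ y, G ((n : ℤ) • y) * zz y ^ l ∂mu = 0 := by
  have h := integral_add_right_eq_self (μ := mu) (fun y => G ((n : ℤ) • y) * zz y ^ l)
    (((n : ℝ)⁻¹ : ℝ) : UnitAddCircle)
  simp only [smul_add, smul_root hn, add_zero, zz_add, mul_zpow, ← mul_assoc] at h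
  rw [integral_mul_const] at h
  by_contra h0
  exact hl (((zz_root hn).zpow_eq_one_iff_dvd l).1 (mul_left_cancel₀ h0 (h.trans (mul_one _).symm)))

end Pool.Agent.Lib.MP_becf51_an
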