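import Pool.Agent.Lib.MP_becf51_an.Push

/-! Explicit integrals of `|cos t - cos τ|` against the density. -/

namespace Pool.Agent.Lib.MP_becf51_an

open MeasureTheory AddCircle Complex Real

lemma split_abs {τ : ℝ} (h0 : 0 ≤ τ) (h1 : τ ≤ π) (w : ℝ → ℝ) (hw : Continuous w) :
    ∫ t in (-τ)..(2 * π - τ), w t * |Real.cos t - Real.cos τ| =
      (∫ t in (-τ)..τ, w t * (Real.cos t - Real.cos τ)) -
        ∫ t in τ..(2 * π - τ), w t * (Real.cos t - Real.cos τ) := by
  have hc : Continuous fun t => w t * |Real.cos t - Real.cos τ| := by fun_prop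
  rw [← intervalIntegral.integral_add_adjacent_intervals (hc.intervalIntegrable (-τ) τ)
    (hc.intervalIntegrable τ (2 * π - τ)), sub_eq_add_neg (∫ t in (-τ)..τ, _),
    ← intervalIntegral.integral_neg]
  congr 1
  · refine intervalIntegral.integral_congr fun t ht => ?_
    rw [Set.uIcc_of_le (by linarith)] at ht
    have : Real.cos τ ≤ Real.cos t := by
      rw [← Real.cos_abs t]
      exact Real.cos_le_cos_of_nonneg_of_le_pi (abs_nonneg t) h1 (abs_le.mpr ⟨ht.1, ht.2⟩)
    rw [abs_of_nonneg (by linarith)]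
  · refine intervalIntegral.integral_congr fun t ht => ?_
    rw [Set.uIcc_of_le (by linarith)] at ht
    have : Real.cos t ≤ Real.cos τ := by
      rcases le_total t π with h | h
      · exact Real.cos_le_cos_of_nonneg_of_le_pi h0 h ht.1
      · rw [← Real.cos_two_pi_sub t]
        exact Real.cos_le_cos_of_nonneg_of_le_pi h0 (by linarith) (by linarith [ht.2])
    rw [abs_of_nonpos (by linarith)]; ring

lemma int_rho_abs (ε : ℝ) (m : ℕ) (τ : ℝ) :
    ∫ x, rho ε m (zz x) * |(zz x).re + -Real.cos τ| ∂mu =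
      (2 * π)⁻¹ * ∫ t in (-τ)..(2 * π - τ),
        (1 + ε ^ 2 + 2 * ε ^ (m + 1) * Real.cos (m * t)) * |Real.cos t - Real.cos τ| := by
  rw [int_circle (fun z => rho ε m z * |z.re + -Real.cos τ|),
    circleAverage_eq_integral_add (-τ),
    intervalIntegral.integral_comp_add_right
      (fun θ => rho ε m (circleMap 0 1 θ) * |(circleMap 0 1 θ).re + -Real.cos τ|)]
  rw [smul_eq_mul, zero_add, ← sub_eq_add_neg]
  congr 2
  ext t
  have e1 : circleMap 0 1 t = Complex.exp (t * I) := by simp [circleMap]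
  have e2 : Complex.exp (t * I) ^ m = Complex.exp (((m * t : ℝ) : ℂ) * I) := by
    rw [← Complex.exp_nat_mul]; congr 1; push_cast; ring
  rw [e1, rho, e2, Complex.exp_ofReal_mul_I_re, Complex.exp_ofReal_mul_I_re, sub_eq_add_neg]

lemma odd_bound (j : ℕ) {η : ℝ} (hη : 0 < η) :
    π / 2 * ∫ x, rho ((-1) ^ (j + 1) * η) (2 * (j + 1)) (zz x) * |(zz x).re + 0| ∂mu <
      1 + ((-1) ^ (j + 1) * η) ^ 2 := by
  set ε : ℝ := (-1) ^ (j + 1) * η with hε
  have h0 : (0 : ℝ) = -Real.cos (π / 2) := by simp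
  rw [h0, int_rho_abs, split_abs (by positivity) (by linarith [pi_pos]) _ (by fun_prop)]
  set a : ℝ := 1 + ε ^ 2 with ha
  set b : ℝ := ε ^ (2 * (j + 1) + 1) with hb
  let F : ℝ → ℝ := fun t => a * Real.sin t +
    b * (Real.sin ((2 * j + 3) * t) / (2 * j + 3) + Real.sin ((2 * j + 1) * t) / (2 * j + 1))
  have hF : ∀ t, HasDerivAt F
      ((a + 2 * b * Real.cos (((2 * (j + 1) : ℕ) : ℝ) * t)) * (Real.cos t - Real.cos (π / 2))) t := by
    intro t
    have d1 : HasDerivAt (fun t => Real.sin ((2 * j + 3) * t))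
        (Real.cos ((2 * j + 3) * t) * (2 * j + 3)) t := by
      simpa using ((hasDerivAt_id t).const_mul (2 * (j : ℝ) + 3)).sin
    have d2 : HasDerivAt (fun t => Real.sin ((2 * j + 1) * t))
        (Real.cos ((2 * j + 1) * t) * (2 * j + 1)) t := by
      simpa using ((hasDerivAt_id t).const_mul (2 * (j : ℝ) + 1)).sin
    have d := ((Real.hasDerivAt_sin t).const_mul a).add
      (((d1.div_const (2 * j + 3)).add (d2.div_const (2 * j + 1))).const_mul b)
    refine HasDerivAt.congr_deriv d ?_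
    have e1 : (2 * (j : ℝ) + 3) * t = ((2 * (j + 1) : ℕ) : ℝ) * t + t := by push_cast; ring
    have e2 : (2 * (j : ℝ) + 1) * t = ((2 * (j + 1) : ℕ) : ℝ) * t - t := by push_cast; ring
    rw [mul_div_cancel_right₀ _ (by positivity), mul_div_cancel_right₀ _ (by positivity), e1, e2,
      Real.cos_add, Real.cos_sub, Real.cos_pi_div_two]
    ring
  have hI : ∀ u v : ℝ, ∫ t in u..v,
      (a + 2 * b * Real.cos (((2 * (j + 1) : ℕ) : ℝ) * t)) * (Real.cos t - Real.cos (π / 2)) =
        F v - F u := fun u v =>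
    intervalIntegral.integral_eq_sub_of_hasDerivAt (fun t _ => hF t)
      (Continuous.intervalIntegrable (by fun_prop) _ _)
  rw [hI, hI]
  have s1 : Real.sin ((2 * j + 3) * (π / 2)) = (-1) ^ (j + 1) := by
    rw [show (2 * (j : ℝ) + 3) * (π / 2) = π / 2 + ((j + 1 : ℕ) : ℝ) * π by push_cast; ring,
      Real.sin_add_nat_mul_pi]; simp
  have s2 : Real.sin ((2 * j + 1) * (π / 2)) = -(-1) ^ (j + 1) := by
    rw [show (2 * (j : ℝ) + 1) * (π / 2) = π / 2 + (j : ℝ) * π by ring,
      Real.sin_add_nat_mul_pi]; simp [pow_succ]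
  have hper : ∀ t, F (t + π) = -F t := by
    intro t
    simp only [F]
    rw [show (2 * (j : ℝ) + 3) * (t + π) = (2 * j + 3) * t + ((2 * j + 3 : ℕ) : ℝ) * π by
        push_cast; ring,
      show (2 * (j : ℝ) + 1) * (t + π) = (2 * j + 1) * t + ((2 * j + 1 : ℕ) : ℝ) * π by
        push_cast; ring,
      Real.sin_add_nat_mul_pi, Real.sin_add_nat_mul_pi, Real.sin_add_pi,
      Odd.neg_one_pow (n := 2 * j + 3) ⟨j + 1, by ring⟩,
      Odd.neg_one_pow (n := 2 * j + 1) ⟨j, by ring⟩]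
    ring
  have f1 : F (-(π / 2)) = -F (π / 2) := by
    have := hper (-(π / 2))
    rw [show -(π / 2) + π = π / 2 by ring] at this
    linarith
  have f2 : F (2 * π - π / 2) = -F (π / 2) := by
    rw [show 2 * π - π / 2 = π / 2 + π by ring, hper]
  have f3 : F (π / 2) = a + b * (-1) ^ (j + 1) * (1 / (2 * j + 3) - 1 / (2 * j + 1)) := by
    simp only [F]
    rw [s1, s2, Real.sin_pi_div_two]; ring
  have hb' : 0 < b * (-1) ^ (j + 1) := by
    have : b * (-1) ^ (j + 1) = η ^ (2 * (j + 1) + 1) := by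
      rw [hb, hε, mul_pow, ← pow_mul, mul_right_comm, ← pow_add,
        Even.neg_one_pow ⟨(j + 1) * (j + 1 + 1), by ring⟩, one_mul]
    rw [this]; positivity
  have hneg : (1 / (2 * (j : ℝ) + 3) - 1 / (2 * j + 1)) < 0 := by
    rw [sub_neg]
    exact one_div_lt_one_div_of_lt (by positivity) (by linarith)
  rw [f1, f2, f3]
  have hpi := pi_pos
  have e : π / 2 * ((2 * π)⁻¹ *
      (a + b * (-1) ^ (j + 1) * (1 / (2 * j + 3) - 1 / (2 * j + 1)) -
        -(a + b * (-1) ^ (j + 1) * (1 / (2 * j + 3) - 1 / (2 * j + 1))) -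
        (-(a + b * (-1) ^ (j + 1) * (1 / (2 * j + 3) - 1 / (2 * j + 1))) -
        (a + b * (-1) ^ (j + 1) * (1 / (2 * j + 3) - 1 / (2 * j + 1)))))) =
      a + b * (-1) ^ (j + 1) * (1 / (2 * j + 3) - 1 / (2 * j + 1)) := by
    generalize (a + b * (-1) ^ (j + 1) * (1 / (2 * (j : ℝ) + 3) - 1 / (2 * j + 1))) = X
    field_simp
    ring
  rw [e]
  nlinarith [mul_neg_of_pos_of_neg hb' hneg]

lemma even_bound {ε : ℝ} (h0 : 0 < ε) (h1 : ε ≤ 1) :
    π / 2 * ∫ x, rho ε 1 (zz x) * |(zz x).re + -Real.sin (ε ^ 2 / 4)| ∂mu <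
      1 + ε ^ 2 + -Real.sin (ε ^ 2 / 4) * ε ^ 2 := by
  set s : ℝ := ε ^ 2 / 4 with hs
  have hε2 : ε ^ 2 ≤ 1 := by nlinarith
  have hs0 : 0 < s := by positivity
  have hs1 : s ≤ 1 / 4 := by linarith
  have hpi := pi_gt_three
  rw [← Real.cos_pi_div_two_sub s, int_rho_abs,
    split_abs (by linarith) (by linarith) _ (by fun_prop), Real.cos_pi_div_two_sub]
  set a : ℝ := 1 + ε ^ 2 with ha
  set b : ℝ := ε ^ (1 + 1) with hb
  set c : ℝ := Real.sin s with hc
  let F : ℝ → ℝ := fun t => (a - 2 * b * c) * Real.sin t +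
    b * (t + Real.sin t * Real.cos t) - c * a * t
  have hF : ∀ t, HasDerivAt F
      ((a + 2 * b * Real.cos (((1 : ℕ) : ℝ) * t)) * (Real.cos t - c)) t := by
    intro t
    have d := (((Real.hasDerivAt_sin t).const_mul (a - 2 * b * c)).add
      (((hasDerivAt_id t).add ((Real.hasDerivAt_sin t).mul (Real.hasDerivAt_cos t))).const_mul
        b)).sub ((hasDerivAt_id t).const_mul (c * a))
    refine HasDerivAt.congr_deriv d ?_
    simp only [Nat.cast_one, one_mul]
    have := Real.sin_sq_add_cos_sq t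
    linear_combination (-b) * this
  have hI : ∀ u v : ℝ, ∫ t in u..v,
      (a + 2 * b * Real.cos (((1 : ℕ) : ℝ) * t)) * (Real.cos t - c) = F v - F u := fun u v =>
    intervalIntegral.integral_eq_sub_of_hasDerivAt (fun t _ => hF t)
      (Continuous.intervalIntegrable (by fun_prop) _ _)
  rw [hI, hI]
  simp only [F, Real.sin_neg, Real.cos_neg, Real.sin_two_pi_sub, Real.cos_two_pi_sub,
    Real.sin_pi_div_two_sub, Real.cos_pi_div_two_sub, ← hc]
  have e : π / 2 * ((2 * π)⁻¹ *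
      ((a - 2 * b * c) * Real.cos s + b * (π / 2 - s + Real.cos s * c) - c * a * (π / 2 - s) -
        ((a - 2 * b * c) * -Real.cos s + b * (-(π / 2 - s) + -Real.cos s * c) -
          c * a * -(π / 2 - s)) -
        ((a - 2 * b * c) * -Real.cos s + b * (2 * π - (π / 2 - s) + -Real.cos s * c) -
          c * a * (2 * π - (π / 2 - s)) -
          ((a - 2 * b * c) * Real.cos s + b * (π / 2 - s + Real.cos s * c) -
            c * a * (π / 2 - s))))) =
      a * (Real.cos s + s * c) - b * (s + c * Real.cos s) := by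
    field_simp
    ring
  rw [e]
  have hb2 : b = 4 * s := by rw [hb, hs]; ring
  have ha2 : a = 1 + 4 * s := by rw [ha, hs]; ring
  have c1 : c ≤ s := Real.sin_le hs0.le
  have c0 : 0 ≤ c := Real.sin_nonneg_of_nonneg_of_le_pi hs0.le (by linarith)
  have k1 : Real.cos s ≤ 1 := Real.cos_le_one s
  have k2 : 1 - s ^ 2 / 2 ≤ Real.cos s := Real.one_sub_sq_div_two_le_cos
  rw [hb2, ha2]
  have t1 : c * (1 - Real.cos s) ≤ s * (s ^ 2 / 2) :=
    mul_le_mul c1 (by linarith) (by linarith) hs0.le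
  have t2 : s * c ≤ s * s := mul_le_mul_of_nonneg_left c1 hs0.le
  have t3 : (1 + 4 * s) * (Real.cos s + s * c) ≤ (1 + 4 * s) * (1 + s * s) :=
    mul_le_mul_of_nonneg_left (by linarith) (by linarith)
  have t4 : 4 * s * (c * (1 - Real.cos s)) ≤ 4 * s * (s * (s ^ 2 / 2)) :=
    mul_le_mul_of_nonneg_left t1 (by linarith)
  have t5 : s * s * s ≤ s * s * (1 / 4) := mul_le_mul_of_nonneg_left hs1 (by positivity)
  have t6 : s * s * (s * s) ≤ s * s * 1 :=
    mul_le_mul_of_nonneg_left (by nlinarith) (by positivity)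
  have t7 : 0 < s * s := by positivity
  nlinarith

end Pool.Agent.Lib.MP_becf51_an
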