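import Pool.Agent.Lib.MP_becf51_an.Sign
import Pool.Agent.Lib.MP_becf51_an.Circ
import Pool.Agent.Lib.MP_becf51_an.Conj

/-! The lower bound: circulant sign matrices tested on modulated conjugate Fejer kernels. -/

namespace Pool.Agent.Lib.MP_becf51_an

open MeasureTheory AddCircle Complex Real Finset Matrix Filter
open scoped ComplexConjugate ENNReal

/-- The test polynomial. -/
noncomputable def pp (κ : ℝ) (n : ℕ) (s y : UnitAddCircle) : ℝ :=
  κ * (fej n bb y).re + (fej n bb y * zz ((n : ℤ) • (y - s))).re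

lemma pp_eq (κ : ℝ) (n : ℕ) (s y : UnitAddCircle) : (pp κ n s y : ℂ) =
    κ / 2 * (fej n bb y * zz y ^ (0 : ℤ)) +
    κ / 2 * (fej n (fun m => conj (bb (-m))) y * zz y ^ (0 : ℤ)) +
    zz s ^ (-(n : ℤ)) / 2 * (fej n bb y * zz y ^ (n : ℤ)) +
    zz s ^ (n : ℤ) / 2 * (fej n (fun m => conj (bb (-m))) y * zz y ^ (-(n : ℤ))) := by
  rw [pp, ofReal_add, ofReal_mul, re_eq_add_conj, re_eq_add_conj, zz_zsmul, zz_sub, mul_zpow,
    _root_.inv_zpow', map_mul, map_mul, conj_zpow, conj_zpow, neg_neg, fej_conj, zpow_zero]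
  ring

lemma abs_pp (κ : ℝ) (n : ℕ) (s y : UnitAddCircle) : |pp κ n s y| ≤
    |(fej n bb y).re| * |(zz ((n : ℤ) • (y - s))).re + κ| + |(fej n bb y).im| := by
  have h1 : |(zz ((n : ℤ) • (y - s))).im| ≤ 1 := (abs_im_le_norm _).trans (norm_zz _).le
  rw [pp, mul_re, ← abs_mul, show ∀ a b c d : ℝ, κ * a + (a * b - c * d) = a * (b + κ) - c * d from
    fun a b c d => by ring]
  refine (abs_sub _ _).trans (add_le_add le_rfl ?_)
  rw [abs_mul]
  exact mul_le_of_le_one_right (abs_nonneg _) h1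

lemma continuous_pp (κ : ℝ) (n : ℕ) :
    Continuous fun q : UnitAddCircle × UnitAddCircle => pp κ n q.1 q.2 :=
  (continuous_const.mul ((cont_re n).comp continuous_snd)).add (continuous_re.comp
    (((continuous_fej n bb).comp continuous_snd).mul (continuous_zz.comp (by fun_prop))))

lemma pair_pp (κ : ℝ) {N : ℕ} {s : UnitAddCircle} {ε : Fin (N + 1) → ℝ} {f : Lp ℂ ∞ mu}
    (hf : ∀ j k : Fin (N + 1), fourierCoeff f ((j : ℤ) - (k : ℤ)) = circ N s ε j k) :
    ∫ x, (pp κ (N + 1) s x : ℂ) * f x ∂mu =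
      ∑ l, (ε l : ℂ) / (N + 1 : ℕ) * pp κ (N + 1) s (node N s l) := by
  have hi : ∀ (a : ℂ) (b : ℤ → ℂ) (t : ℤ),
      Integrable (fun x => a * (f x * (fej (N + 1) b x * zz x ^ t))) mu := fun a b t =>
    ((integrable_Lp f).mul_bdd (c := ‖(⟨_, (continuous_fej (N + 1) b).mul (continuous_zpow t)⟩ :
      C(UnitAddCircle, ℂ))‖) ((continuous_fej _ _).mul (continuous_zpow t)).aestronglyMeasurable
      (.of_forall fun y => ContinuousMap.norm_coe_le_norm
        (⟨_, (continuous_fej (N + 1) b).mul (continuous_zpow t)⟩ : C(UnitAddCircle, ℂ)) y)).const_mul a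
  have e : ∀ (a b c : ℂ), a * b * c = a * (c * b) := fun a b c => by ring
  simp only [pp_eq, add_mul, e]
  rw [integral_add (by exact ((hi _ _ _).add (hi _ _ _)).add (hi _ _ _)) (hi _ _ _),
    integral_add (by exact (hi _ _ _).add (hi _ _ _)) (hi _ _ _),
    integral_add (hi _ _ _) (hi _ _ _), integral_const_mul, integral_const_mul, integral_const_mul,
    integral_const_mul, circ_pair hf _ _ fun m hm => .inr (by omega),
    circ_pair hf _ _ fun m hm => .inr (by omega), circ_pair hf, circ_pair hf]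
  · simp only [mul_sum, ← sum_add_distrib]
    exact sum_congr rfl fun l _ => by ring
  · intro m hm
    rcases lt_or_ge 0 m with h | h
    · exact .inr (by omega)
    · exact .inl (by rw [bb, if_neg (by omega), map_zero])
  · intro m hm
    rcases lt_or_ge m 0 with h | h
    · exact .inr (by omega)
    · exact .inl (by rw [bb, if_neg (by omega)])

/-- Every self-adjoint Toeplitz matrix of norm one has a symbol of norm at most `c`. -/
def Bd (N : ℕ) (c : ℝ) : Prop :=
  ∀ A : Matrix (Fin (N + 1)) (Fin (N + 1)) ℂ, A.IsHermitian →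
    (∃ a : ℤ → ℂ, ∀ j k : Fin (N + 1), A j k = a ((j : ℤ) - (k : ℤ))) →
    ‖toEuclideanCLM (n := Fin (N + 1)) (𝕜 := ℂ) A‖ = 1 →
    ∃ f : Lp ℂ ∞ mu, (∀ j k : Fin (N + 1), fourierCoeff f ((j : ℤ) - (k : ℤ)) = A j k) ∧ ‖f‖ ≤ c

lemma node_bound (κ : ℝ) {N : ℕ} {c : ℝ} (h : Bd N c) (s : UnitAddCircle) :
    (1 + κ) / (N + 1 : ℕ) * ∑ l, |(fej (N + 1) bb (node N s l)).re| ≤
      (∫ y, |pp κ (N + 1) s y| ∂mu) * c := by
  obtain ⟨f, hf, hc⟩ := h (circ N s fun l => sg 0 (fej (N + 1) bb (node N s l))) (circ_herm _ _ _)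
    ⟨fun m => ∑ l, (sg 0 (fej (N + 1) bb (node N s l)) : ℂ) / (N + 1 : ℕ) *
      zz (node N s l) ^ (-m), fun j k => rfl⟩ (circ_norm _ _ fun l => abs_sg _ _)
  have h1 := holder f (pp κ (N + 1) s)
    ((continuous_pp κ (N + 1)).comp (f := fun y => (s, y)) (by fun_prop))
  have h2 : ∑ l, (sg 0 (fej (N + 1) bb (node N s l)) : ℂ) / (N + 1 : ℕ) *
      pp κ (N + 1) s (node N s l) =
      (((1 + κ) / (N + 1 : ℕ) * ∑ l, |(fej (N + 1) bb (node N s l)).re| : ℝ) : ℂ) := by
    rw [mul_sum, ofReal_sum]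
    refine sum_congr rfl fun l _ => ?_
    have h3 := sg_mul 0 (fej (N + 1) bb (node N s l))
    rw [add_zero] at h3
    rw [pp, node_smul, show zz 0 = 1 from fourier_eval_zero 1, mul_one, ← h3]
    push_cast
    ring
  rw [pair_pp κ hf, h2, norm_real, Real.norm_eq_abs] at h1
  exact (le_abs_self _).trans (h1.trans
    (mul_le_mul_of_nonneg_left hc (integral_nonneg fun y => abs_nonneg _)))

lemma mean_bound {D : ℝ} (hD : Real.cos D = D) {N : ℕ} {c : ℝ} (hc : 0 ≤ c) (h : Bd N c) :
    (1 + Real.sin D) * ∫ y, |(fej (N + 1) bb y).re| ∂mu ≤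
      ((∫ y, |(fej (N + 1) bb y).re| ∂mu) * ((1 + Real.sin D) * (2 * D / π)) + 2) * c := by
  have hn := Nat.succ_ne_zero N
  have c1 := (cont_re (N + 1)).abs
  have c2 := (cont_im (N + 1)).abs
  have c3 : Continuous fun x => |(zz x).re + Real.sin D| :=
    ((continuous_re.comp continuous_zz).add continuous_const).abs
  have c4 : ∀ l, Continuous fun s => |(fej (N + 1) bb (node N s l)).re| := fun l =>
    c1.comp (continuous_id.add continuous_const)
  have hi : Integrable (Function.uncurry fun s y => |pp (Real.sin D) (N + 1) s y|) (mu.prod mu) :=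
    (continuous_pp _ _).abs.integrable_of_hasCompactSupport (HasCompactSupport.of_compactSpace _)
  have h1 := integral_mono (integrable_of_continuous
    (continuous_const.mul (continuous_finsetSum _ fun l _ => c4 l)))
    (hi.integral_prod_left.mul_const c) (node_bound (Real.sin D) h)
  have h2 : ∀ l, ∫ s, |(fej (N + 1) bb (node N s l)).re| ∂mu = ∫ y, |(fej (N + 1) bb y).re| ∂mu :=
    fun l => integral_add_right_eq_self (fun y => |(fej (N + 1) bb y).re|) _
  have h3 : ∀ y, ∫ s, |pp (Real.sin D) (N + 1) s y| ∂mu ≤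
      |(fej (N + 1) bb y).re| * ((1 + Real.sin D) * (2 * D / π)) + |(fej (N + 1) bb y).im| := by
    intro y
    have c5 : Continuous fun s : UnitAddCircle =>
        |(zz (((N + 1 : ℕ) : ℤ) • (y - s))).re + Real.sin D| := c3.comp (by fun_prop)
    have e : ∫ s, |(zz (((N + 1 : ℕ) : ℤ) • (y - s))).re + Real.sin D| ∂mu =
        (1 + Real.sin D) * (2 * D / π) := by
      rw [integral_sub_left_eq_self
        (fun s => |(zz (((N + 1 : ℕ) : ℤ) • s)).re + Real.sin D|) mu y,
        int_dil hn (G := fun x => |(zz x).re + Real.sin D|) c3.aestronglyMeasurable, int_abs hD]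
    refine (integral_mono (integrable_of_continuous ((continuous_pp _ _).abs.comp
      (f := fun s => (s, y)) (by fun_prop))) (integrable_of_continuous
        ((continuous_const.mul c5).add continuous_const)) fun s => abs_pp _ _ s y).trans_eq ?_
    simp only [Pi.add_apply, Pi.mul_apply]
    rw [integral_add ((integrable_of_continuous c5).const_mul _)
      (integrable_const _), integral_const_mul, e]
    simp
  have h4 := integral_mono hi.integral_prod_right
    (integrable_of_continuous ((c1.mul continuous_const).add c2)) h3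
  simp only [Function.uncurry_apply_pair, Pi.add_apply, Pi.mul_apply] at h1 h4
  rw [integral_add ((integrable_of_continuous c1).mul_const _)
    (integrable_of_continuous c2), integral_mul_const] at h4
  rw [integral_const_mul, integral_mul_const, integral_integral_swap hi,
    integral_finsetSum _ fun l _ => integrable_of_continuous (c4 l)] at h1
  simp only [h2, sum_const, card_univ, Fintype.card_fin, nsmul_eq_mul] at h1
  rw [← mul_assoc, div_mul_cancel₀ _ (Nat.cast_ne_zero.2 hn)] at h1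
  exact h1.trans (mul_le_mul_of_nonneg_right (h4.trans (add_le_add le_rfl (int_im_bb hn))) hc)

theorem not_bd {D : ℝ} (hD : Real.cos D = D) {c : ℝ} (h0 : 0 ≤ c) (hc : c < π / (2 * D)) :
    ∀ᶠ N in atTop, ¬ Bd N c := by
  obtain ⟨d0, d1⟩ := dottie_pos hD
  have hp := Real.pi_pos
  have hs : 0 ≤ Real.sin D := Real.sin_nonneg_of_nonneg_of_le_pi d0.le (by linarith)
  have h1 : 0 < 1 - 2 * D / π * c := by
    rw [lt_div_iff₀ (by positivity)] at hc
    rw [sub_pos, div_mul_eq_mul_div, div_lt_one hp]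
    linarith
  have h2 : Tendsto (fun N : ℕ => 2 / π * (∑ i ∈ range (N + 1), (1 / (i + 1) : ℝ) - 1) - 2)
      atTop atTop :=
    tendsto_atTop_add_const_right _ (-2) (Tendsto.const_mul_atTop (by positivity)
      (tendsto_atTop_add_const_right _ (-1)
        (Real.tendsto_sum_range_one_div_nat_succ_atTop.comp (tendsto_add_atTop_nat 1))))
  filter_upwards [h2.eventually_gt_atTop (2 * c / (1 - 2 * D / π * c))] with N hN h
  have h3 := mean_bound hD h0 h
  have h4 := hN.trans_le (int_re_bb (Nat.succ_ne_zero N))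
  have h5 : 0 ≤ ∫ y, |(fej (N + 1) bb y).re| ∂mu := integral_nonneg fun y => abs_nonneg _
  generalize ∫ y, |(fej (N + 1) bb y).re| ∂mu = U at h3 h4 h5
  rw [div_lt_iff₀ h1] at h4
  nlinarith [mul_nonneg (mul_nonneg hs h5) h1.le]

end Pool.Agent.Lib.MP_becf51_an
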