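import Mathlib

/-! An explicit real symmetric Toeplitz matrix of norm at most one exchanging `h` and `h^#`. -/

namespace Pool.Agent.Lib.MP_becf51_an

open Matrix
open scoped ComplexConjugate InnerProductSpace

lemma norm_le_of_eigen {E : Type} [NormedAddCommGroup E] [InnerProductSpace ℂ E]
    [FiniteDimensional ℂ E] (T : E →ₗ[ℂ] E) (hT : T.IsSymmetric) (p q : E) (hp : T p = p)
    (hq : T q = -q) (hw : ∀ w, ⟪p, w⟫_ℂ = 0 → ⟪q, w⟫_ℂ = 0 → ‖T w‖ ≤ ‖w‖) (x : E) :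
    ‖T x‖ ≤ ‖x‖ := by
  have hpq : ⟪p, q⟫_ℂ = 0 := by
    have := hT p q
    rw [hp, hq, inner_neg_right] at this
    linear_combination (1 / 2 : ℂ) * this
  obtain ⟨y, hy, w, hw', rfl⟩ := (Submodule.span ℂ {p, q}).exists_add_mem_mem_orthogonal x
  obtain ⟨α, β, rfl⟩ := Submodule.mem_span_pair.mp hy
  have h1 : ⟪p, w⟫_ℂ = 0 := hw' p (Submodule.subset_span (by simp))
  have h2 : ⟪q, w⟫_ℂ = 0 := hw' q (Submodule.subset_span (by simp))
  have h3 : ⟪p, T w⟫_ℂ = 0 := by rw [← hT, hp, h1]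
  have h4 : ⟪q, T w⟫_ℂ = 0 := by rw [← hT, hq, inner_neg_left, h2, neg_zero]
  have h5 := hw w h1 h2
  have e1 : ‖α • p + β • q + w‖ * ‖α • p + β • q + w‖ =
      ‖α • p‖ * ‖α • p‖ + ‖β • q‖ * ‖β • q‖ + ‖w‖ * ‖w‖ := by
    rw [norm_add_sq_eq_norm_sq_add_norm_sq_of_inner_eq_zero (𝕜 := ℂ),
      norm_add_sq_eq_norm_sq_add_norm_sq_of_inner_eq_zero (𝕜 := ℂ)]
    · simp [inner_smul_left, inner_smul_right, hpq]
    · simp [inner_add_left, inner_smul_left, h1, h2]
  have e2 : ‖T (α • p + β • q + w)‖ * ‖T (α • p + β • q + w)‖ =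
      ‖α • p‖ * ‖α • p‖ + ‖β • q‖ * ‖β • q‖ + ‖T w‖ * ‖T w‖ := by
    rw [map_add, map_add, map_smul, map_smul, hp, hq, smul_neg,
      norm_add_sq_eq_norm_sq_add_norm_sq_of_inner_eq_zero (𝕜 := ℂ),
      norm_add_sq_eq_norm_sq_add_norm_sq_of_inner_eq_zero (𝕜 := ℂ), norm_neg]
    · simp [inner_smul_left, inner_smul_right, hpq]
    · simp [inner_add_left, inner_smul_left, h3, h4]
  have h6 : ‖T w‖ * ‖T w‖ ≤ ‖w‖ * ‖w‖ := mul_self_le_mul_self (norm_nonneg _) h5
  exact (mul_self_le_mul_self_iff (norm_nonneg _) (norm_nonneg _)).mpr (by linarith)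

/-- The small diagonals. -/
noncomputable def a1 (ε : ℝ) (r d : ℕ) (n : ℕ) : ℝ :=
  (if n = r then ε / (1 - ε ^ 2) else 0) + (if n = d - r then -ε ^ 2 / (1 - ε ^ 2) else 0)

/-- The symbol coefficients, as a function of `|n|`. -/
noncomputable def aa (ε : ℝ) (r d : ℕ) (n : ℕ) : ℝ :=
  a1 ε r d n + if n = d + r then 1 - ε * a1 ε r d r else 0

lemma aa_eq {ε : ℝ} (hε : |ε| < 1) {r d : ℕ} (hr : 1 ≤ r) (hrd : r ≤ d) (h : r = 1 ∨ d = r)
    (j : ℕ) (hj : j ≤ d + r) :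
    aa ε r d j + ε * aa ε r d ((j : ℤ) - d).natAbs =
      (if j = d + r then 1 else 0) + ε * (if j = r then 1 else 0) := by
  have h1 : 1 - ε ^ 2 ≠ 0 := by
    have : ε ^ 2 < 1 := by rw [sq_lt_one_iff_abs_lt_one]; exact hε
    linarith
  unfold aa a1
  split_ifs <;> first | omega | (field_simp; ring)

lemma a1_bound {ε : ℝ} (hε : |ε| ≤ 1 / 4) (r d n : ℕ) : |a1 ε r d n| ≤ 2 * |ε| := by
  have h0 := abs_nonneg ε
  have h2 : ε ^ 2 = |ε| ^ 2 := (sq_abs ε).symm
  have h1 : (15 / 16 : ℝ) ≤ 1 - ε ^ 2 := by rw [h2]; nlinarith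
  have hx : |ε / (1 - ε ^ 2)| ≤ 16 / 15 * |ε| := by
    rw [abs_div, abs_of_pos (by linarith : 0 < 1 - ε ^ 2), div_le_iff₀ (by linarith)]
    nlinarith
  have hy : |-ε ^ 2 / (1 - ε ^ 2)| ≤ 1 / 2 * |ε| := by
    rw [abs_div, abs_of_pos (by linarith : 0 < 1 - ε ^ 2), div_le_iff₀ (by linarith), abs_neg,
      abs_pow]
    nlinarith
  unfold a1
  refine (abs_add_le _ _).trans ?_
  split_ifs <;> (try simp only [abs_zero]) <;> linarith

/-- The Toeplitz matrix. -/
noncomputable def AA (ε : ℝ) (r d : ℕ) : Matrix (Fin (d + r + 1)) (Fin (d + r + 1)) ℂ :=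
  of fun j k => (aa ε r d ((j : ℤ) - k).natAbs : ℂ)

lemma AA_herm (ε : ℝ) (r d : ℕ) : (AA ε r d).IsHermitian := by
  ext j k
  simp only [AA, conjTranspose_apply, of_apply, Complex.star_def, Complex.conj_ofReal]
  congr 2
  omega

lemma AA_norm {ε : ℝ} {r d : ℕ} (hε : |ε| ≤ 1 / (4 * ((d + r + 1 : ℕ) : ℝ) ^ 2)) (hr : 1 ≤ r)
    (hrd : r ≤ d) (h : r = 1 ∨ d = r) :
    ‖toEuclideanCLM (n := Fin (d + r + 1)) (𝕜 := ℂ) (AA ε r d)‖ ≤ 1 := by
  set M : ℝ := ((d + r + 1 : ℕ) : ℝ) with hM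
  have hM1 : 1 ≤ M := by rw [hM]; exact_mod_cast Nat.le_add_left 1 _
  have hε4 : |ε| ≤ 1 / 4 := by
    refine hε.trans (one_div_le_one_div_of_le (by norm_num) ?_)
    nlinarith
  have hε1 : |ε| < 1 := by linarith
  let i0 : Fin (d + r + 1) := ⟨0, by omega⟩
  let id : Fin (d + r + 1) := ⟨d, by omega⟩
  let ir : Fin (d + r + 1) := ⟨r, by omega⟩
  let iN : Fin (d + r + 1) := ⟨d + r, by omega⟩
  let u : EuclideanSpace ℂ (Fin (d + r + 1)) :=
    EuclideanSpace.single i0 1 + (ε : ℂ) • EuclideanSpace.single id 1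
  let v : EuclideanSpace ℂ (Fin (d + r + 1)) :=
    EuclideanSpace.single iN 1 + (ε : ℂ) • EuclideanSpace.single ir 1
  let T := toEuclideanLin (AA ε r d)
  have hT : T.IsSymmetric := isSymmetric_toEuclideanLin_iff.mpr (AA_herm ε r d)
  have hTapp : ∀ (w : EuclideanSpace ℂ (Fin (d + r + 1))) j,
      T w j = ∑ k, AA ε r d j k * w k := fun w j => rfl
  have hsingle : ∀ k j, T (EuclideanSpace.single k 1) j = AA ε r d j k := by
    intro k j
    rw [hTapp]
    simp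
  have hu : T u = v := by
    ext j
    have := aa_eq hε1 hr hrd h j (by omega)
    simp only [u, v, map_add, map_smul, PiLp.add_apply, PiLp.smul_apply, hsingle, AA, of_apply,
      smul_eq_mul, PiLp.single_apply, i0, id, iN, ir, Fin.ext_iff]
    simp only [Nat.cast_zero, sub_zero, Int.natAbs_natCast]
    have h2 := congrArg (fun x : ℝ => (x : ℂ)) this
    simp only [Complex.ofReal_add, Complex.ofReal_mul] at h2
    rw [h2]
    split_ifs <;> simp
  have hv : T v = u := by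
    ext j
    have := aa_eq hε1 hr hrd h (d + r - j) (by omega)
    simp only [u, v, map_add, map_smul, PiLp.add_apply, PiLp.smul_apply, hsingle, AA, of_apply,
      smul_eq_mul, PiLp.single_apply, i0, id, iN, ir, Fin.ext_iff]
    have e1 : ((j : ℤ) - ((d + r : ℕ) : ℤ)).natAbs = d + r - j := by omega
    have e2 : ((j : ℤ) - (r : ℤ)).natAbs = (((d + r - j : ℕ) : ℤ) - d).natAbs := by omega
    rw [e1, e2]
    have h2 := congrArg (fun x : ℝ => (x : ℂ)) this
    simp only [Complex.ofReal_add, Complex.ofReal_mul] at h2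
    rw [h2]
    split_ifs <;> first | omega | simp
  refine ContinuousLinearMap.opNorm_le_bound _ zero_le_one fun x => ?_
  rw [one_mul]
  refine norm_le_of_eigen T hT (u + v) (u - v) (by rw [map_add, hu, hv, add_comm v u])
    (by rw [map_sub, hu, hv, neg_sub]) ?_ x
  intro w h1 h2
  rw [inner_add_left] at h1
  rw [inner_sub_left] at h2
  have h3 : ⟪u, w⟫_ℂ = 0 := by linear_combination (1 / 2 : ℂ) * (h1 + h2)
  have h4 : ⟪v, w⟫_ℂ = 0 := by linear_combination (1 / 2 : ℂ) * (h1 - h2)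
  simp only [u, v, inner_add_left, inner_smul_left, EuclideanSpace.inner_single_left, map_one,
    one_mul, Complex.conj_ofReal] at h3 h4
  have hcoord : ∀ k, ‖w k‖ ≤ ‖w‖ := fun k => PiLp.norm_apply_le w k
  have hw0 : ‖w i0‖ ≤ |ε| * ‖w‖ := by
    rw [show w i0 = -(ε * w id) by linear_combination h3, norm_neg, norm_mul, Complex.norm_real,
      Real.norm_eq_abs]
    exact mul_le_mul_of_nonneg_left (hcoord _) (abs_nonneg _)
  have hwN : ‖w iN‖ ≤ |ε| * ‖w‖ := by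
    rw [show w iN = -(ε * w ir) by linear_combination h4, norm_neg, norm_mul, Complex.norm_real,
      Real.norm_eq_abs]
    exact mul_le_mul_of_nonneg_left (hcoord _) (abs_nonneg _)
  have hz : |1 - ε * a1 ε r d r| ≤ 2 := by
    have := a1_bound hε4 r d r
    have h5 : |ε * a1 ε r d r| ≤ 1 := by
      rw [abs_mul]
      nlinarith [abs_nonneg ε, abs_nonneg (a1 ε r d r)]
    have := abs_sub 1 (ε * a1 ε r d r)
    rw [abs_one] at this
    linarith
  have hterm : ∀ j k, ‖AA ε r d j k * w k‖ ≤ 4 * |ε| * ‖w‖ := by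
    intro j k
    have hb := a1_bound hε4 r d ((j : ℤ) - k).natAbs
    have hk := hcoord k
    have n0 := norm_nonneg (w k)
    have n1 := abs_nonneg ε
    have n2 := norm_nonneg w
    simp only [AA, of_apply, aa, norm_mul, Complex.norm_real, Real.norm_eq_abs]
    split_ifs with hjk
    · have hk' : ‖w k‖ ≤ |ε| * ‖w‖ := by
        have : k = i0 ∨ k = iN := by
          simp only [i0, iN, Fin.ext_iff]
          omega
        rcases this with rfl | rfl
        · exact hw0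
        · exact hwN
      have t1 := abs_add_le (a1 ε r d ((j : ℤ) - k).natAbs) (1 - ε * a1 ε r d r)
      have t2 : |a1 ε r d ((j : ℤ) - k).natAbs + (1 - ε * a1 ε r d r)| * ‖w k‖ ≤
          (2 * |ε| + 2) * ‖w k‖ := mul_le_mul_of_nonneg_right (by linarith) n0
      have t3 : |ε| * ‖w k‖ ≤ |ε| * ‖w‖ := mul_le_mul_of_nonneg_left hk n1
      nlinarith
    · rw [add_zero]
      have t2 : |a1 ε r d ((j : ℤ) - k).natAbs| * ‖w k‖ ≤ (2 * |ε|) * ‖w‖ :=
        mul_le_mul hb hk n0 (by linarith)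
      nlinarith [mul_nonneg n1 n2]
  have hrow : ∀ j, ‖T w j‖ ≤ M * (4 * |ε| * ‖w‖) := by
    intro j
    rw [hTapp]
    refine (norm_sum_le _ _).trans ?_
    refine (Finset.sum_le_card_nsmul _ _ _ fun k _ => hterm j k).trans ?_
    simp [hM]
  have hsmall : M * (4 * |ε| * ‖w‖) ≤ ‖w‖ / M := by
    rw [le_div_iff₀ (by linarith)]
    have : |ε| * (4 * M ^ 2) ≤ 1 := by rwa [le_div_iff₀ (by positivity)] at hε
    nlinarith [norm_nonneg w]
  have hsq : ‖T w‖ ^ 2 ≤ ‖w‖ ^ 2 := by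
    rw [EuclideanSpace.norm_sq_eq]
    refine (Finset.sum_le_card_nsmul _ _ ((‖w‖ / M) ^ 2) fun j _ =>
      pow_le_pow_left₀ (norm_nonneg _) ((hrow j).trans hsmall) 2).trans ?_
    simp only [Finset.card_univ, Fintype.card_fin, nsmul_eq_mul, ← hM]
    rw [div_pow, mul_div_assoc', div_le_iff₀ (by positivity)]
    nlinarith [sq_nonneg ‖w‖, mul_nonneg (sq_nonneg ‖w‖) (by nlinarith : 0 ≤ M ^ 2 - M)]
  exact (pow_le_pow_iff_left₀ (norm_nonneg _) (norm_nonneg _) two_ne_zero).mp hsq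

end Pool.Agent.Lib.MP_becf51_an
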