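import Pool.Agent.Lib.MP_becf51_an.Integrals
import Pool.Agent.Lib.MP_becf51_an.Mat

/-! Duality: every bounded symbol inducing the matrix has norm larger than `π / 2`. -/

namespace Pool.Agent.Lib.MP_becf51_an

open MeasureTheory AddCircle Complex Real Matrix
open scoped ComplexConjugate ENNReal

lemma ae_norm_le (f : Lp ℂ ∞ mu) : ∀ᵐ x ∂mu, ‖f x‖ ≤ ‖f‖ := by
  filter_upwards [ae_le_eLpNormEssSup (f := f) (μ := mu)] with x hx
  rw [Lp.norm_def, eLpNorm_exponent_top, ← toReal_enorm]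
  refine ENNReal.toReal_mono ?_ hx
  rw [← eLpNorm_exponent_top]
  exact Lp.eLpNorm_ne_top f

lemma integrable_Lp (f : Lp ℂ ∞ mu) : Integrable f mu := (Lp.memLp f).integrable le_top

lemma coeff_eq (f : UnitAddCircle → ℂ) (n : ℤ) :
    ∫ x, zz x ^ n * f x ∂mu = fourierCoeff f (-n) := by
  simp only [fourierCoeff, neg_neg, smul_eq_mul, fourier_eq_zpow]

lemma integrable_zpow_mul (f : Lp ℂ ∞ mu) (n : ℤ) :
    Integrable (fun x => zz x ^ n * f x) mu := by
  have := (integrable_Lp f).fourier_smul n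
  simpa only [smul_eq_mul, fourier_eq_zpow] using this

lemma holder (f : Lp ℂ ∞ mu) (P : UnitAddCircle → ℝ) (hP : Continuous P) :
    ‖∫ x, (P x : ℂ) * f x ∂mu‖ ≤ (∫ x, |P x| ∂mu) * ‖f‖ := by
  rw [← integral_mul_const]
  refine norm_integral_le_of_norm_le ((integrable_of_continuous hP.abs).mul_const _) ?_
  filter_upwards [ae_norm_le f] with x hx
  rw [norm_mul, Complex.norm_real, Real.norm_eq_abs]
  exact mul_le_mul_of_nonneg_left hx (abs_nonneg _)

lemma dual_bound {ε : ℝ} {r m0 : ℕ} (hε : |ε| < 1) (hr : 1 ≤ r) (hm : 1 ≤ m0)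
    (h : r = 1 ∨ m0 = 1) (γ : ℝ) (f : Lp ℂ ∞ mu)
    (hf : ∀ n : ℤ, n.natAbs ≤ m0 * r + r →
      fourierCoeff f n = (aa ε r (m0 * r) n.natAbs : ℂ)) :
    1 + ε ^ 2 + γ * (if m0 * r = r then ε ^ 2 else 0) ≤
      (∫ x, rho ε m0 (zz x) * |(zz x).re + γ| ∂mu) * ‖f‖ := by
  have hrd : r ≤ m0 * r := Nat.le_mul_of_pos_left r hm
  have h' : r = 1 ∨ m0 * r = r := by
    rcases h with h | h
    · exact Or.inl h
    · right; rw [h, one_mul]
  let P : UnitAddCircle → ℝ := fun x =>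
    ‖hh ε r m0 (zz x)‖ ^ 2 * ((BB ε r m0 (zz x)).re + γ)
  have hP : Continuous P := by
    have h1 := continuous_hh (ε := ε) (r := r) (m0 := m0)
    have h2 := continuous_BB (r := r) (m0 := m0) hε
    fun_prop
  have h1 : ∫ x, |P x| ∂mu = ∫ x, rho ε m0 (zz x) * |(zz x).re + γ| ∂mu := by
    rw [← push hε hr hm (fun w => |w.re + γ|) (by fun_prop)]
    congr 1
    ext x
    simp only [P]
    rw [abs_mul, abs_of_nonneg (by positivity)]
  generalize hd : m0 * r = d at hrd h' hf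
  let c : Fin 9 → ℂ := ![1 / 2, ε, ε ^ 2 / 2, 1 / 2, ε, ε ^ 2 / 2, γ * (1 + ε ^ 2), γ * ε, γ * ε]
  let n : Fin 9 → ℤ := ![d + r, r, r - d, -(d + r), -r, d - r, 0, d, -d]
  have h2 : ∀ x, (P x : ℂ) * f x = ∑ i, c i * (zz x ^ n i * f x) := by
    intro x
    have hz := zz_ne x
    have hh0 : hh ε r m0 (zz x) ≠ 0 := hh_ne hε (norm_zz x).le
    have hB : conj (BB ε r m0 (zz x)) = (BB ε r m0 (zz x))⁻¹ := by
      rw [Complex.inv_def, Complex.normSq_eq_norm_sq, norm_BB hε]; simp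
    have hB0 : BB ε r m0 (zz x) ≠ 0 := by
      intro h0
      have := norm_BB (r := r) (m0 := m0) hε x
      rw [h0] at this; simp at this
    have hy : zz x ^ d + ε ≠ 0 := by
      intro h0
      apply hB0
      unfold BB
      rw [hd, h0]; simp
    simp only [P]
    rw [Complex.ofReal_mul, weight_eq, Complex.ofReal_add, Complex.re_eq_add_conj, hB]
    simp only [c, n, Fin.sum_univ_succ, Matrix.cons_val_zero, Matrix.cons_val_succ,
      Finset.univ_eq_empty, Finset.sum_empty, _root_.zpow_neg, zpow_add₀ hz, zpow_sub₀ hz,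
      _root_.zpow_natCast, _root_.zpow_zero]
    unfold BB hh at *
    rw [hd] at *
    have hy0 : zz x ^ d ≠ 0 := pow_ne_zero _ hz
    generalize zz x ^ d = y at *
    have hw : zz x ^ r ≠ 0 := pow_ne_zero _ hz
    generalize zz x ^ r = w at *
    field_simp
    ring
  have h3 : ∫ x, (P x : ℂ) * f x ∂mu =
      ((1 + ε ^ 2 + γ * (if d = r then ε ^ 2 else 0) : ℝ) : ℂ) := by
    simp_rw [h2]
    rw [integral_finsetSum _ fun i _ => (integrable_zpow_mul f (n i)).const_mul _]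
    simp_rw [integral_const_mul, coeff_eq]
    have hn : ∀ i, (-n i).natAbs ≤ d + r := by
      intro i; fin_cases i <;> simp [n] <;> omega
    simp_rw [fun i => hf (-n i) (hn i)]
    simp only [c, n, Fin.sum_univ_succ, Matrix.cons_val_zero, Matrix.cons_val_succ,
      Finset.univ_eq_empty, Finset.sum_empty]
    have e1 := aa_eq hε hr hrd h' (d + r) le_rfl
    have e2 := aa_eq hε hr hrd h' r (by omega)
    have e3 := aa_eq hε hr hrd h' 0 (by omega)
    have e4 := aa_eq hε hr hrd h' d (by omega)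
    rw [if_pos rfl, if_neg (by omega), show (((d + r : ℕ) : ℤ) - d).natAbs = r by omega] at e1
    rw [if_neg (by omega), if_pos rfl, show ((r : ℤ) - d).natAbs = d - r by omega] at e2
    rw [if_neg (by omega), if_neg (by omega), show (((0 : ℕ) : ℤ) - d).natAbs = d by omega] at e3
    rw [if_neg (by omega), show ((d : ℤ) - d).natAbs = 0 by omega] at e4
    rw [show (-((d : ℤ) + r)).natAbs = d + r by omega, show (-(r : ℤ)).natAbs = r by omega,
      show (-((r : ℤ) - d)).natAbs = d - r by omega, show (- -((d : ℤ) + r)).natAbs = d + r by omega,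
      show (- -(r : ℤ)).natAbs = r by omega, show (-((d : ℤ) - r)).natAbs = d - r by omega,
      show (-(0 : ℤ)).natAbs = 0 by omega, show (-(d : ℤ)).natAbs = d by omega,
      show (- -(d : ℤ)).natAbs = d by omega]
    have e5 : (1 / 2 * aa ε r d (d + r) + (ε * aa ε r d r + (ε ^ 2 / 2 * aa ε r d (d - r) +
        (1 / 2 * aa ε r d (d + r) + (ε * aa ε r d r + (ε ^ 2 / 2 * aa ε r d (d - r) +
        (γ * (1 + ε ^ 2) * aa ε r d 0 + (γ * ε * aa ε r d d + (γ * ε * aa ε r d d + 0))))))))) =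
        1 + ε ^ 2 + γ * (if d = r then ε ^ 2 else 0) := by
      split_ifs at e4 ⊢
      · linear_combination e1 + ε * e2 + γ * e3 + γ * ε * e4
      · linear_combination e1 + ε * e2 + γ * e3 + γ * ε * e4
    rw [← e5]
    push_cast
    ring
  have h4 := holder f P hP
  rw [h3, h1, Complex.norm_real, Real.norm_eq_abs] at h4
  exact (le_abs_self _).trans h4

/-- The existence statement behind the theorem. -/
theorem exists_good (N : ℕ) (hN : 2 ≤ N) :
    ∃ A : Matrix (Fin (N + 1)) (Fin (N + 1)) ℂ, A.IsHermitian ∧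
      (∃ a : ℤ → ℂ, ∀ j k : Fin (N + 1), A j k = a ((j : ℤ) - (k : ℤ))) ∧ A ≠ 0 ∧
      ‖toEuclideanCLM (n := Fin (N + 1)) (𝕜 := ℂ) A‖ ≤ 1 ∧
      ∃ c : ℝ, π / 2 < c ∧ ∀ f : Lp ℂ ∞ mu,
        (∀ j k : Fin (N + 1), fourierCoeff f ((j : ℤ) - (k : ℤ)) = A j k) → c ≤ ‖f‖ := by
  have main : ∀ (ε γ : ℝ) (r m0 : ℕ), |ε| ≤ 1 / (4 * ((m0 * r + r + 1 : ℕ) : ℝ) ^ 2) → 1 ≤ r →
      1 ≤ m0 → (r = 1 ∨ m0 = 1) →
      π / 2 * ∫ x, rho ε m0 (zz x) * |(zz x).re + γ| ∂mu <
        1 + ε ^ 2 + γ * (if m0 * r = r then ε ^ 2 else 0) →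
      ∃ A : Matrix (Fin (m0 * r + r + 1)) (Fin (m0 * r + r + 1)) ℂ, A.IsHermitian ∧
      (∃ a : ℤ → ℂ, ∀ j k : Fin (m0 * r + r + 1), A j k = a ((j : ℤ) - (k : ℤ))) ∧ A ≠ 0 ∧
      ‖toEuclideanCLM (n := Fin (m0 * r + r + 1)) (𝕜 := ℂ) A‖ ≤ 1 ∧
      ∃ c : ℝ, π / 2 < c ∧ ∀ f : Lp ℂ ∞ mu,
        (∀ j k : Fin (m0 * r + r + 1), fourierCoeff f ((j : ℤ) - (k : ℤ)) = A j k) →
          c ≤ ‖f‖ := by
    intro ε γ r m0 hε hr hm h hlt
    have hrd : r ≤ m0 * r := Nat.le_mul_of_pos_left r hm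
    have h' : r = 1 ∨ m0 * r = r := by
      rcases h with h | h
      · exact Or.inl h
      · right; rw [h, one_mul]
    have hε1 : |ε| < 1 := by
      refine hε.trans_lt ?_
      have : (1 : ℝ) ≤ ((m0 * r + r + 1 : ℕ) : ℝ) := by exact_mod_cast Nat.le_add_left 1 _
      rw [div_lt_one (by positivity)]
      nlinarith
    set I := ∫ x, rho ε m0 (zz x) * |(zz x).re + γ| ∂mu with hI
    set M := 1 + ε ^ 2 + γ * (if m0 * r = r then ε ^ 2 else 0) with hM
    have hI0 : 0 ≤ I := by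
      rw [hI, ← push hε1 hr hm (fun w => |w.re + γ|) (by fun_prop)]
      exact integral_nonneg fun x => by positivity
    have hM0 : 0 < M := lt_of_le_of_lt (by have := pi_pos; positivity) hlt
    have hb : ∀ f : Lp ℂ ∞ mu,
        (∀ j k : Fin (m0 * r + r + 1), fourierCoeff f ((j : ℤ) - (k : ℤ)) =
          AA ε r (m0 * r) j k) → M ≤ I * ‖f‖ := by
      intro f hf
      refine dual_bound hε1 hr hm h γ f fun n hn => ?_
      rcases le_total 0 n with h0 | h0
      · have := hf ⟨n.natAbs, by omega⟩ ⟨0, by omega⟩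
        simp only [AA, of_apply] at this
        rwa [show ((n.natAbs : ℕ) : ℤ) - ((0 : ℕ) : ℤ) = n by omega] at this
      · have := hf ⟨0, by omega⟩ ⟨n.natAbs, by omega⟩
        simp only [AA, of_apply] at this
        rwa [show ((0 : ℕ) : ℤ) - ((n.natAbs : ℕ) : ℤ) = n by omega] at this
    refine ⟨AA ε r (m0 * r), AA_herm _ _ _, ⟨fun n => (aa ε r (m0 * r) n.natAbs : ℂ),
      fun j k => rfl⟩, ?_, AA_norm hε hr hrd h', ?_⟩
    · intro h0
      have := hb 0 (fun j k => by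
        rw [h0, fourierCoeff_congr_ae (Lp.coeFn_zero ℂ ∞ mu)]
        simp [fourierCoeff])
      simp at this
      linarith
    · rcases hI0.eq_or_lt with h0 | h0
      · refine ⟨2, by linarith [pi_lt_four], fun f hf => ?_⟩
        have := hb f hf
        rw [← h0] at this
        linarith
      · refine ⟨M / I, by rwa [lt_div_iff₀ h0], fun f hf => ?_⟩
        rw [div_le_iff₀ h0, mul_comm]
        exact hb f hf
  have hη : (0 : ℝ) < 1 / (4 * ((N + 1 : ℕ) : ℝ) ^ 2) := by positivity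
  rcases Nat.even_or_odd' N with ⟨r, rfl | rfl⟩
  · have e : 2 * r = 1 * r + r := by ring
    rw [e] at hη ⊢
    set η : ℝ := 1 / (4 * ((1 * r + r + 1 : ℕ) : ℝ) ^ 2) with hη'
    have hη1 : η ≤ 1 := by
      have : (1 : ℝ) ≤ ((1 * r + r + 1 : ℕ) : ℝ) := by exact_mod_cast Nat.le_add_left 1 _
      rw [hη', div_le_one (by positivity)]
      nlinarith
    refine main η (-Real.sin (η ^ 2 / 4)) r 1 (abs_of_pos hη).le (by omega) le_rfl (Or.inr rfl) ?_
    rw [if_pos (one_mul r)]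
    exact even_bound hη hη1
  · obtain ⟨j, rfl⟩ : ∃ j, r = j + 1 := ⟨r - 1, by omega⟩
    have e : 2 * (j + 1) + 1 = 2 * (j + 1) * 1 + 1 := by ring
    rw [e] at hη ⊢
    set η : ℝ := 1 / (4 * ((2 * (j + 1) * 1 + 1 + 1 : ℕ) : ℝ) ^ 2) with hη'
    refine main ((-1) ^ (j + 1) * η) 0 1 (2 * (j + 1)) ?_ le_rfl (by omega) (Or.inl rfl) ?_
    · rw [abs_mul, abs_pow, abs_neg, abs_one, one_pow, one_mul, abs_of_pos hη]
    · rw [zero_mul, add_zero]
      exact odd_bound j hη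

lemma entry_le_norm {N : ℕ} (A : Matrix (Fin (N + 1)) (Fin (N + 1)) ℂ) (j k : Fin (N + 1)) :
    ‖A j k‖ ≤ ‖toEuclideanCLM (n := Fin (N + 1)) (𝕜 := ℂ) A‖ := by
  have h1 := (toEuclideanCLM (n := Fin (N + 1)) (𝕜 := ℂ) A).le_opNorm (EuclideanSpace.single k 1)
  have h2 := PiLp.norm_apply_le
    (toEuclideanCLM (n := Fin (N + 1)) (𝕜 := ℂ) A (EuclideanSpace.single k 1)) j
  have h3 : toEuclideanCLM (n := Fin (N + 1)) (𝕜 := ℂ) A (EuclideanSpace.single k 1) j =
      A j k := by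
    change ∑ i, A j i * (EuclideanSpace.single k (1 : ℂ) : EuclideanSpace ℂ (Fin (N + 1))) i = _
    simp
  rw [h3] at h2
  simpa using h2.trans h1

/-- A trigonometric polynomial inducing a given Toeplitz matrix. -/
lemma exists_symbol {N : ℕ} (A : Matrix (Fin (N + 1)) (Fin (N + 1)) ℂ)
    (hA : ∃ a : ℤ → ℂ, ∀ j k : Fin (N + 1), A j k = a ((j : ℤ) - (k : ℤ))) :
    ∃ f : Lp ℂ ∞ mu, (∀ j k : Fin (N + 1), fourierCoeff f ((j : ℤ) - (k : ℤ)) = A j k) ∧
      ‖f‖ ≤ (2 * N + 1) * ‖toEuclideanCLM (n := Fin (N + 1)) (𝕜 := ℂ) A‖ := by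
  obtain ⟨a, ha⟩ := hA
  let g : C(UnitAddCircle, ℂ) := ∑ n ∈ Finset.Icc (-(N : ℤ)) N, a n • fourier n
  have hg := ContinuousMap.coeFn_toLp (p := ∞) (μ := mu) (𝕜 := ℂ) g
  refine ⟨ContinuousMap.toLp ∞ mu ℂ g, fun j k => ?_, ?_⟩
  · rw [fourierCoeff_congr_ae hg, ha]
    have e : (g : UnitAddCircle → ℂ) =
        ∑ n ∈ Finset.Icc (-(N : ℤ)) N, a n • (fourier n : UnitAddCircle → ℂ) := by
      ext x; simp [g]
    rw [e, fourierCoeff.sum _ _ fun n _ =>
      integrable_of_continuous ((fourier n).continuous.const_smul (a n)), Finset.sum_apply]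
    simp_rw [fourierCoeff.const_smul, fourierCoeff_fourier, Pi.single_apply]
    rw [Finset.sum_eq_single ((j : ℤ) - (k : ℤ))]
    · simp
    · intro b _ hb
      rw [if_neg (Ne.symm hb), smul_zero]
    · intro hb
      exact absurd (Finset.mem_Icc.mpr ⟨by omega, by omega⟩) hb
  · have hb : ∀ n ∈ Finset.Icc (-(N : ℤ)) N,
        ‖a n‖ ≤ ‖toEuclideanCLM (n := Fin (N + 1)) (𝕜 := ℂ) A‖ := by
      intro n hn
      rw [Finset.mem_Icc] at hn
      rcases le_total 0 n with h0 | h0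
      · have := ha ⟨n.natAbs, by omega⟩ ⟨0, by omega⟩
        rw [show ((n.natAbs : ℕ) : ℤ) - ((0 : ℕ) : ℤ) = n by omega] at this
        rw [← this]; exact entry_le_norm A _ _
      · have := ha ⟨0, by omega⟩ ⟨n.natAbs, by omega⟩
        rw [show ((0 : ℕ) : ℤ) - ((n.natAbs : ℕ) : ℤ) = n by omega] at this
        rw [← this]; exact entry_le_norm A _ _
    have := Lp.norm_le_of_ae_bound (f := ContinuousMap.toLp ∞ mu ℂ g)
      (C := (2 * N + 1) * ‖toEuclideanCLM (n := Fin (N + 1)) (𝕜 := ℂ) A‖) (by positivity) (by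
        filter_upwards [hg] with x hx
        rw [hx]
        simp only [g, ContinuousMap.coe_sum, Finset.sum_apply, ContinuousMap.smul_apply,
          smul_eq_mul]
        refine (norm_sum_le _ _).trans ?_
        refine (Finset.sum_le_card_nsmul _ _
          ‖toEuclideanCLM (n := Fin (N + 1)) (𝕜 := ℂ) A‖ fun n hn => ?_).trans ?_
        · rw [norm_mul, fourier_apply, Circle.norm_coe, mul_one]
          exact hb n hn
        · rw [Int.card_Icc, show ((N : ℤ) + 1 - -(N : ℤ)).toNat = 2 * N + 1 by omega]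
          simp)
    simpa using this

end Pool.Agent.Lib.MP_becf51_an
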