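import Mathlib

/-! The image of the measure `|h|^2 dm` under the Blaschke product `z^N conj h / h`. -/

namespace Pool.Agent.Lib.MP_becf51_an

open MeasureTheory AddCircle Complex Real
open scoped ComplexConjugate

/-- Normalised Haar measure on the circle. -/
noncomputable abbrev mu : Measure UnitAddCircle := haarAddCircle

/-- The coordinate function `z` on the circle. -/
noncomputable def zz (x : UnitAddCircle) : ℂ := fourier 1 x

lemma norm_zz (x : UnitAddCircle) : ‖zz x‖ = 1 := by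
  unfold zz; rw [fourier_apply]; exact Circle.norm_coe _

lemma zz_ne (x : UnitAddCircle) : zz x ≠ 0 := by
  intro h; have := norm_zz x; rw [h] at this; simp at this

lemma continuous_zz : Continuous zz := (fourier 1).continuous

lemma conj_zz (x : UnitAddCircle) : conj (zz x) = (zz x)⁻¹ := by
  rw [Complex.inv_def, Complex.normSq_eq_norm_sq, norm_zz]; simp

lemma fourier_nat (n : ℕ) (x : UnitAddCircle) : fourier (n : ℤ) x = zz x ^ n := by
  induction n with
  | zero => simp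
  | succ n ih => rw [Nat.cast_succ, fourier_add, ih, pow_succ]; rfl

lemma fourier_eq_zpow (n : ℤ) (x : UnitAddCircle) : fourier n x = zz x ^ n := by
  obtain ⟨m, rfl | rfl⟩ := Int.eq_nat_or_neg n
  · rw [fourier_nat, zpow_natCast]
  · rw [fourier_neg, fourier_nat, map_pow, conj_zz, zpow_neg, zpow_natCast, inv_pow]

lemma zz_add (x y : UnitAddCircle) : zz (x + y) = zz x * zz y := by
  unfold zz
  rw [fourier_one, fourier_one, fourier_one, toCircle_add, Circle.coe_mul]

lemma zz_coe (t : ℝ) : zz (t : UnitAddCircle) = Complex.exp (2 * π * I * t) := by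
  unfold zz; rw [fourier_coe_apply]; simp

lemma int_circle {E : Type} [NormedAddCommGroup E] [NormedSpace ℝ E] (F : ℂ → E) :
    ∫ x, F (zz x) ∂mu = circleAverage F 0 1 := by
  rw [integral_haarAddCircle, ← UnitAddCircle.intervalIntegral_preimage 0, circleAverage_def]
  have h := intervalIntegral.integral_comp_mul_left (a := 0) (b := 1)
    (fun θ : ℝ => F (circleMap 0 1 θ)) (c := 2 * π) (by positivity)
  simp only [mul_zero, mul_one] at h
  rw [← h]
  simp only [inv_one, one_smul, zero_add]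
  congr 1
  ext t
  rw [zz_coe, circleMap]
  congr 1
  push_cast
  ring_nf

lemma int_zpow (n : ℤ) : ∫ x, zz x ^ n ∂mu = if n = 0 then 1 else 0 := by
  have h := congrFun (fourierCoeff_fourier (T := 1) n) 0
  simp only [fourierCoeff, neg_zero, fourier_zero, one_smul] at h
  simp_rw [fourier_eq_zpow] at h
  rw [h, Pi.single_apply]
  simp [eq_comm]

lemma integrable_of_continuous {E : Type} [NormedAddCommGroup E] {F : UnitAddCircle → E}
    (hF : Continuous F) : Integrable F mu :=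
  hF.integrable_of_hasCompactSupport (HasCompactSupport.of_compactSpace F)

lemma continuous_zpow (n : ℤ) : Continuous fun x => zz x ^ n :=
  continuous_zz.zpow₀ n fun x => Or.inl (zz_ne x)

lemma int_three (a b c : ℂ) (n1 n2 n3 : ℤ) :
    ∫ x, a * zz x ^ n1 + (b * zz x ^ n2 + c * zz x ^ n3) ∂mu =
      a * (if n1 = 0 then 1 else 0) +
        (b * (if n2 = 0 then 1 else 0) + c * (if n3 = 0 then 1 else 0)) := by
  have i1 := (integrable_of_continuous (continuous_zpow n1)).const_mul a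
  have i2 := (integrable_of_continuous (continuous_zpow n2)).const_mul b
  have i3 := (integrable_of_continuous (continuous_zpow n3)).const_mul c
  have i4 : Integrable (fun x => b * zz x ^ n2 + c * zz x ^ n3) mu := i2.add i3
  rw [integral_add i1 i4, integral_add i2 i3, integral_const_mul, integral_const_mul,
    integral_const_mul, int_zpow, int_zpow, int_zpow]

/-- The functional `F ↦ ∫ w · (F ∘ γ)`. -/
noncomputable def wInt (w : C(UnitAddCircle, ℂ)) (γ : C(UnitAddCircle, UnitAddCircle)) :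
    C(UnitAddCircle, ℂ) →L[ℂ] ℂ :=
  LinearMap.mkContinuous
    { toFun := fun F => ∫ x, w x * F (γ x) ∂mu
      map_add' := fun F G => by
        simp only [ContinuousMap.add_apply, mul_add]
        rw [integral_add] <;> exact integrable_of_continuous (by fun_prop)
      map_smul' := fun c F => by
        simp only [ContinuousMap.smul_apply, smul_eq_mul, mul_left_comm _ c, RingHom.id_apply]
        rw [integral_const_mul] }
    ‖w‖ (fun F => by
      have := norm_integral_le_of_norm_le_const (μ := mu) (f := fun x => w x * F (γ x))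
        (C := ‖w‖ * ‖F‖) (Filter.Eventually.of_forall fun x => by
          rw [norm_mul]
          exact mul_le_mul (w.norm_coe_le_norm x) (F.norm_coe_le_norm _) (norm_nonneg _)
            (norm_nonneg _))
      simpa using this)

lemma wInt_apply (w : C(UnitAddCircle, ℂ)) (γ : C(UnitAddCircle, UnitAddCircle))
    (F : C(UnitAddCircle, ℂ)) : wInt w γ F = ∫ x, w x * F (γ x) ∂mu := rfl

section

variable (ε : ℝ) (r m0 : ℕ)

/-- `h(z) = 1 + ε z^d`, `d = m0 r`. -/
noncomputable def hh (z : ℂ) : ℂ := 1 + ε * z ^ (m0 * r)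

/-- The Blaschke product `z^r (z^d + ε) / (1 + ε z^d)`. -/
noncomputable def BB (z : ℂ) : ℂ := z ^ r * (z ^ (m0 * r) + ε) / hh ε r m0 z

variable {ε r m0}

lemma hh_ne (hε : |ε| < 1) {z : ℂ} (hz : ‖z‖ ≤ 1) : hh ε r m0 z ≠ 0 := by
  intro h
  unfold hh at h
  have h1 : (ε : ℂ) * z ^ (m0 * r) = -1 := by linear_combination h
  have h2 := congrArg norm h1
  rw [norm_mul, norm_pow, norm_neg, norm_one, Complex.norm_real, Real.norm_eq_abs] at h2
  have h3 : ‖z‖ ^ (m0 * r) ≤ 1 := pow_le_one₀ (norm_nonneg _) hz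
  nlinarith [abs_nonneg ε]

lemma conj_hh (x : UnitAddCircle) :
    conj (hh ε r m0 (zz x)) = (zz x ^ (m0 * r) + ε) / zz x ^ (m0 * r) := by
  unfold hh
  have := zz_ne x
  simp only [map_add, map_one, map_mul, conj_ofReal, map_pow, conj_zz, inv_pow]
  field_simp

lemma norm_BB (hε : |ε| < 1) (x : UnitAddCircle) : ‖BB ε r m0 (zz x)‖ = 1 := by
  have h1 := congrArg norm (conj_hh (ε := ε) (r := r) (m0 := m0) x)
  rw [Complex.norm_conj, norm_div, norm_pow, norm_zz, one_pow, div_one] at h1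
  have h2 : ‖hh ε r m0 (zz x)‖ ≠ 0 := norm_ne_zero_iff.mpr (hh_ne hε (norm_zz x).le)
  unfold BB
  rw [norm_div, norm_mul, norm_pow, norm_zz, one_pow, one_mul, ← h1, div_self h2]

lemma continuous_hh : Continuous fun x => hh ε r m0 (zz x) := by
  unfold hh
  have := continuous_zz
  fun_prop

lemma continuous_BB (hε : |ε| < 1) : Continuous fun x => BB ε r m0 (zz x) := by
  unfold BB
  have := continuous_zz
  refine Continuous.div (by fun_prop) continuous_hh fun x => hh_ne hε (norm_zz x).le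

/-- The weight `|h|^2` as a complex number. -/
lemma weight_eq (x : UnitAddCircle) :
    ((‖hh ε r m0 (zz x)‖ ^ 2 : ℝ) : ℂ) =
      hh ε r m0 (zz x) * ((zz x ^ (m0 * r) + ε) / zz x ^ (m0 * r)) := by
  rw [← conj_hh, Complex.mul_conj, Complex.normSq_eq_norm_sq]

lemma moment_zero (hr : 1 ≤ r) (hm : 1 ≤ m0) :
    ∫ x, ((‖hh ε r m0 (zz x)‖ ^ 2 : ℝ) : ℂ) ∂mu = 1 + ε ^ 2 := by
  have hd : ((m0 * r : ℕ) : ℤ) ≠ 0 := by positivity
  have e : ∀ x, ((‖hh ε r m0 (zz x)‖ ^ 2 : ℝ) : ℂ) =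
      (1 + ε ^ 2 : ℂ) * zz x ^ (0 : ℤ) +
        (ε * zz x ^ ((m0 * r : ℕ) : ℤ) + ε * zz x ^ (-((m0 * r : ℕ) : ℤ))) := by
    intro x
    rw [weight_eq, zpow_neg, zpow_natCast, zpow_zero]
    unfold hh
    have := zz_ne x
    field_simp
    ring
  simp_rw [e]
  rw [int_three, if_neg hd, if_neg (neg_ne_zero.mpr hd)]
  simp

lemma moment_pos (hε : |ε| < 1) (hr : 1 ≤ r) (hm : 1 ≤ m0) (k : ℕ) :
    ∫ x, ((‖hh ε r m0 (zz x)‖ ^ 2 : ℝ) : ℂ) * BB ε r m0 (zz x) ^ (k + 1) ∂mu =
      if k + 1 = m0 then (ε : ℂ) ^ (m0 + 1) else 0 := by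
  rcases le_or_gt m0 (k + 1) with hk | hk
  · obtain ⟨q, hq⟩ := Nat.exists_eq_add_of_le hk
    let g : ℂ → ℂ := fun z => z ^ (r * q) * (z ^ (m0 * r) + ε) ^ (k + 2) / hh ε r m0 z ^ k
    have e : ∀ x, ((‖hh ε r m0 (zz x)‖ ^ 2 : ℝ) : ℂ) * BB ε r m0 (zz x) ^ (k + 1) = g (zz x) := by
      intro x
      have h1 := zz_ne x
      have h2 : hh ε r m0 (zz x) ≠ 0 := hh_ne hε (norm_zz x).le
      have h3 : (zz x ^ r) ^ (k + 1) = zz x ^ (r * q) * zz x ^ (m0 * r) := by
        rw [← pow_mul, ← pow_add, hq]; congr 1; ring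
      rw [weight_eq]
      simp only [g, BB, div_pow, mul_pow, h3]
      field_simp
      ring
    simp_rw [e]
    rw [int_circle g, circleAverage_of_differentiable_on_off_countable Set.countable_empty]
    · simp only [g, hh]
      have hd : m0 * r ≠ 0 := by positivity
      rcases Nat.eq_zero_or_pos q with rfl | hq0
      · rw [if_pos (by omega)]
        simp [hd, show k + 2 = m0 + 1 by omega]
      · rw [if_neg (by omega)]
        have : r * q ≠ 0 := by positivity
        simp [this]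
    · refine ContinuousOn.div (by fun_prop) (by unfold hh; fun_prop) fun z hz => ?_
      exact pow_ne_zero _ (hh_ne hε (by simpa using hz))
    · intro z hz
      refine DifferentiableAt.div (by fun_prop) (by unfold hh; fun_prop) ?_
      have : ‖z‖ < 1 := by simpa using hz
      exact pow_ne_zero _ (hh_ne hε this.le)
  · rw [if_neg (by omega)]
    have hd : m0 * r ≠ 0 := by positivity
    set a : UnitAddCircle := ((1 / ((m0 * r : ℕ) : ℝ) : ℝ) : UnitAddCircle) with ha
    have hprim : IsPrimitiveRoot (zz a) (m0 * r) := by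
      have := Complex.isPrimitiveRoot_exp (m0 * r) hd
      rw [ha, zz_coe]
      convert this using 2
      push_cast
      ring
    have hω : zz a ^ (r * (k + 1)) ≠ 1 :=
      hprim.pow_ne_one_of_pos_of_lt (by positivity) (by nlinarith)
    have h1 := integral_add_right_eq_self (μ := mu)
      (fun x => ((‖hh ε r m0 (zz x)‖ ^ 2 : ℝ) : ℂ) * BB ε r m0 (zz x) ^ (k + 1)) a
    have e : ∀ x, ((‖hh ε r m0 (zz (x + a))‖ ^ 2 : ℝ) : ℂ) * BB ε r m0 (zz (x + a)) ^ (k + 1) =
        zz a ^ (r * (k + 1)) *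
          (((‖hh ε r m0 (zz x)‖ ^ 2 : ℝ) : ℂ) * BB ε r m0 (zz x) ^ (k + 1)) := by
      intro x
      have h2 : zz (x + a) ^ (m0 * r) = zz x ^ (m0 * r) := by
        rw [zz_add, mul_pow, hprim.pow_eq_one, mul_one]
      have h3 : hh ε r m0 (zz (x + a)) = hh ε r m0 (zz x) := by
        unfold hh; rw [h2]
      have h4 : BB ε r m0 (zz (x + a)) = zz a ^ r * BB ε r m0 (zz x) := by
        unfold BB; rw [h2, h3, zz_add, mul_pow]; ring
      rw [h3, h4, mul_pow, ← pow_mul]; ring
    simp_rw [e] at h1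
    rw [integral_const_mul] at h1
    have h5 : (zz a ^ (r * (k + 1)) - 1) *
      ∫ x, ((‖hh ε r m0 (zz x)‖ ^ 2 : ℝ) : ℂ) * BB ε r m0 (zz x) ^ (k + 1) ∂mu = 0 := by
      linear_combination h1
    exact (mul_eq_zero.mp h5).resolve_left (sub_ne_zero.mpr hω)

/-- The density of the image measure. -/
noncomputable def rho (ε : ℝ) (m0 : ℕ) (z : ℂ) : ℝ :=
  1 + ε ^ 2 + 2 * ε ^ (m0 + 1) * (z ^ m0).re

lemma rho_eq (x : UnitAddCircle) : ((rho ε m0 (zz x) : ℝ) : ℂ) =
    (1 + ε ^ 2 : ℂ) * zz x ^ (0 : ℤ) + ((ε : ℂ) ^ (m0 + 1) * zz x ^ (m0 : ℤ) +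
      (ε : ℂ) ^ (m0 + 1) * zz x ^ (-(m0 : ℤ))) := by
  unfold rho
  have h : ((zz x ^ m0).re : ℂ) = (zz x ^ m0 + conj (zz x ^ m0)) / 2 := Complex.re_eq_add_conj _
  push_cast
  rw [h, map_pow, conj_zz, zpow_neg, zpow_natCast, zpow_zero, inv_pow]
  ring

lemma rho_moment (n : ℤ) : ∫ x, ((rho ε m0 (zz x) : ℝ) : ℂ) * zz x ^ n ∂mu =
    (1 + ε ^ 2 : ℂ) * (if n = 0 then 1 else 0) +
      ((ε : ℂ) ^ (m0 + 1) * (if (m0 : ℤ) + n = 0 then 1 else 0) +
      (ε : ℂ) ^ (m0 + 1) * (if -(m0 : ℤ) + n = 0 then 1 else 0)) := by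
  have e : ∀ x, ((rho ε m0 (zz x) : ℝ) : ℂ) * zz x ^ n =
      (1 + ε ^ 2 : ℂ) * zz x ^ n + ((ε : ℂ) ^ (m0 + 1) * zz x ^ ((m0 : ℤ) + n) +
      (ε : ℂ) ^ (m0 + 1) * zz x ^ (-(m0 : ℤ) + n)) := by
    intro x
    rw [rho_eq, zpow_add₀ (zz_ne x), zpow_add₀ (zz_ne x), zpow_zero]; ring
  simp_rw [e]
  rw [int_three]

lemma moment_all (hε : |ε| < 1) (hr : 1 ≤ r) (hm : 1 ≤ m0) (n : ℤ) :
    ∫ x, ((‖hh ε r m0 (zz x)‖ ^ 2 : ℝ) : ℂ) * BB ε r m0 (zz x) ^ n ∂mu =
      ∫ x, ((rho ε m0 (zz x) : ℝ) : ℂ) * zz x ^ n ∂mu := by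
  have hpos : ∀ m : ℕ, ∫ x, ((‖hh ε r m0 (zz x)‖ ^ 2 : ℝ) : ℂ) * BB ε r m0 (zz x) ^ (m : ℤ) ∂mu =
      ∫ x, ((rho ε m0 (zz x) : ℝ) : ℂ) * zz x ^ (m : ℤ) ∂mu := by
    intro m
    rw [rho_moment]
    cases m with
    | zero =>
      simp only [Nat.cast_zero, zpow_zero, mul_one]
      rw [moment_zero hr hm, if_neg (by omega : ¬ (m0 : ℤ) + 0 = 0),
        if_neg (by omega : ¬ -(m0 : ℤ) + 0 = 0)]
      simp
    | succ k =>
      simp only [zpow_natCast]
      rw [moment_pos hε hr hm, if_neg (by omega : ¬ ((k + 1 : ℕ) : ℤ) = 0),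
        if_neg (by omega : ¬ (m0 : ℤ) + ((k + 1 : ℕ) : ℤ) = 0)]
      by_cases h : k + 1 = m0
      · rw [if_pos h, if_pos (by omega)]; simp
      · rw [if_neg h, if_neg (by omega)]; simp
  obtain ⟨m, rfl | rfl⟩ := Int.eq_nat_or_neg n
  · exact hpos m
  · have h := congrArg conj (hpos m)
    rw [← integral_conj, ← integral_conj] at h
    have hB : ∀ x, conj (BB ε r m0 (zz x)) = (BB ε r m0 (zz x))⁻¹ := by
      intro x
      rw [Complex.inv_def, Complex.normSq_eq_norm_sq, norm_BB hε]; simp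
    simp only [map_mul, conj_ofReal, map_zpow₀, hB, conj_zz, inv_zpow] at h
    simp only [zpow_neg]
    exact h

/-- The push-forward formula. -/
theorem push (hε : |ε| < 1) (hr : 1 ≤ r) (hm : 1 ≤ m0) (Φ : ℂ → ℝ) (hΦ : Continuous Φ) :
    ∫ x, ‖hh ε r m0 (zz x)‖ ^ 2 * Φ (BB ε r m0 (zz x)) ∂mu =
      ∫ x, rho ε m0 (zz x) * Φ (zz x) ∂mu := by
  let e := AddCircle.homeomorphCircle (T := (1 : ℝ)) one_ne_zero
  let bC : UnitAddCircle → Circle := fun x =>
    ⟨BB ε r m0 (zz x), by simp [Submonoid.unitSphere, norm_BB hε]⟩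
  have hbC : Continuous bC := (continuous_BB hε).subtype_mk _
  let β : UnitAddCircle → UnitAddCircle := fun x => e.symm (bC x)
  have hβ : Continuous β := e.symm.continuous.comp hbC
  have hzβ : ∀ x, zz (β x) = BB ε r m0 (zz x) := by
    intro x
    have : toCircle (β x) = bC x := by
      rw [← homeomorphCircle_apply one_ne_zero]
      exact e.apply_symm_apply _
    change fourier 1 (β x) = _
    rw [fourier_one, this]
  have hw1 : Continuous fun x => ((‖hh ε r m0 (zz x)‖ ^ 2 : ℝ) : ℂ) := by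
    have := continuous_hh (ε := ε) (r := r) (m0 := m0)
    fun_prop
  have hw2 : Continuous fun x => ((rho ε m0 (zz x) : ℝ) : ℂ) := by
    unfold rho
    have := continuous_zz
    fun_prop
  have key : ∀ F : C(UnitAddCircle, ℂ),
      ∫ x, ((‖hh ε r m0 (zz x)‖ ^ 2 : ℝ) : ℂ) * F (β x) ∂mu =
        ∫ x, ((rho ε m0 (zz x) : ℝ) : ℂ) * F x ∂mu := by
    have hd : Dense (Submodule.span ℂ (Set.range (fourier (T := 1))) : Set C(UnitAddCircle, ℂ)) :=
      Submodule.dense_iff_topologicalClosure_eq_top.mpr span_fourier_closure_eq_top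
    have hL : wInt ⟨_, hw1⟩ ⟨β, hβ⟩ = wInt ⟨_, hw2⟩ (ContinuousMap.id _) := by
      refine ContinuousLinearMap.ext_on hd ?_
      rintro G ⟨n, rfl⟩
      simp only [wInt_apply, ContinuousMap.coe_mk, ContinuousMap.id_apply]
      simp_rw [fourier_eq_zpow, hzβ]
      exact moment_all hε hr hm n
    intro F
    have := congrArg (fun L : C(UnitAddCircle, ℂ) →L[ℂ] ℂ => L F) hL
    simpa only [wInt_apply, ContinuousMap.coe_mk, ContinuousMap.id_apply] using this
  have h := key ⟨fun x => (Φ (zz x) : ℂ), by have := continuous_zz; fun_prop⟩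
  simp only [ContinuousMap.coe_mk, hzβ] at h
  apply Complex.ofReal_injective
  rw [← integral_complex_ofReal, ← integral_complex_ofReal]
  simpa using h

end

end Pool.Agent.Lib.MP_becf51_an
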