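import Pool.Agent.Lib.MP_becf51_an.Fej

/-! The sign of `cos t + sin D` and its first Fourier coefficients. -/

namespace Pool.Agent.Lib.MP_becf51_an

open MeasureTheory AddCircle Complex Real Finset
open scoped ComplexConjugate

/-- The sign of `Re z + κ`. -/
noncomputable def sg (κ : ℝ) (z : ℂ) : ℝ := if 0 ≤ z.re + κ then 1 else -1

lemma abs_sg (κ : ℝ) (z : ℂ) : |sg κ z| = 1 := by
  unfold sg
  split_ifs <;> simp

lemma sg_mul (κ : ℝ) (z : ℂ) : sg κ z * (z.re + κ) = |z.re + κ| := by
  unfold sg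
  split_ifs with h
  · rw [one_mul, abs_of_nonneg h]
  · rw [neg_one_mul, abs_of_neg (not_le.1 h)]

lemma measurable_sg (κ : ℝ) : Measurable (sg κ) :=
  Measurable.ite (measurableSet_le measurable_const (by fun_prop)) measurable_const
    measurable_const

lemma int_sg_mul {τ : ℝ} (h0 : 0 ≤ τ) (h1 : τ ≤ π) (m : ℤ) :
    ∫ x, (sg (-Real.cos τ) (zz x) : ℂ) * zz x ^ m ∂mu = ((2 * π)⁻¹ : ℝ) *
      ((∫ t in (-τ)..τ, cexp (m * I * t)) - ∫ t in τ..(2 * π - τ), cexp (m * I * t)) := by
  have e1 : ∀ t : ℝ, circleMap 0 1 t = cexp (t * I) := fun t => by simp [circleMap]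
  have e2 : ∀ t : ℝ, cexp (t * I) ^ m = cexp (m * I * t) := fun t => by
    rw [← Complex.exp_int_mul]; congr 1; ring
  rw [int_circle (fun z => (sg (-Real.cos τ) z : ℂ) * z ^ m), circleAverage_eq_integral_add (-τ),
    intervalIntegral.integral_comp_add_right
      (fun θ => (sg (-Real.cos τ) (circleMap 0 1 θ) : ℂ) * circleMap 0 1 θ ^ m),
    zero_add, ← sub_eq_add_neg, Complex.real_smul]
  congr 1
  simp only [e1, e2]
  have hi : ∀ a b : ℝ, IntervalIntegrable
      (fun t : ℝ => (sg (-Real.cos τ) (cexp (t * I)) : ℂ) * cexp (m * I * t)) volume a b := by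
    intro a b
    refine IntervalIntegrable.mul_continuousOn ?_ (by fun_prop)
    refine (intervalIntegrable_const (c := (1 : ℝ))).mono_fun' ?_ (.of_forall fun t => ?_)
    · exact (measurable_ofReal.comp ((measurable_sg _).comp (by fun_prop))).aestronglyMeasurable
    · simp only [norm_real, Real.norm_eq_abs, abs_sg, le_refl]
  rw [← intervalIntegral.integral_add_adjacent_intervals (hi (-τ) τ) (hi τ (2 * π - τ)),
    sub_eq_add_neg (∫ t in (-τ)..τ, _), ← intervalIntegral.integral_neg]
  congr 1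
  · refine intervalIntegral.integral_congr fun t ht => ?_
    rw [Set.uIcc_of_le (by linarith)] at ht
    have : Real.cos τ ≤ Real.cos t := by
      rw [← Real.cos_abs t]
      exact Real.cos_le_cos_of_nonneg_of_le_pi (abs_nonneg t) h1 (abs_le.mpr ⟨ht.1, ht.2⟩)
    simp only [sg, exp_ofReal_mul_I_re]
    rw [if_pos (by linarith), ofReal_one, one_mul]
  · rw [intervalIntegral.integral_of_le (by linarith), intervalIntegral.integral_of_le (by linarith),
      integral_Ioc_eq_integral_Ioo, integral_Ioc_eq_integral_Ioo]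
    refine setIntegral_congr_fun measurableSet_Ioo fun t ht => ?_
    have : Real.cos t < Real.cos τ := by
      rcases le_total t π with h | h
      · exact Real.cos_lt_cos_of_nonneg_of_le_pi h0 h ht.1
      · rw [← Real.cos_two_pi_sub t]
        exact Real.cos_lt_cos_of_nonneg_of_le_pi h0 (by linarith) (by linarith [ht.2])
    simp only [sg, exp_ofReal_mul_I_re]
    rw [if_neg (by linarith)]
    simp

lemma dottie_pos {D : ℝ} (hD : Real.cos D = D) : 0 < D ∧ D < π / 4 := by
  have h1 : -1 ≤ D := hD ▸ Real.neg_one_le_cos D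
  have h2 : D ≤ 1 := hD ▸ Real.cos_le_one D
  have h3 := Real.pi_gt_three
  refine ⟨hD ▸ Real.cos_pos_of_mem_Ioo ⟨by linarith, by linarith⟩, ?_⟩
  by_contra h
  have h4 := Real.cos_le_cos_of_nonneg_of_le_pi (x := π / 4) (by linarith) (by linarith)
    (not_lt.1 h)
  rw [hD, Real.cos_pi_div_four] at h4
  have h5 : √2 < 1.5 := by
    rw [Real.sqrt_lt' (by norm_num)]
    norm_num
  linarith [not_lt.1 h]

lemma int_sg {D : ℝ} (hD : Real.cos D = D) {m : ℤ} (hm : m.natAbs ≤ 1) :
    ∫ x, (sg (Real.sin D) (zz x) : ℂ) * zz x ^ m ∂mu = ((2 * D / π : ℝ) : ℂ) := by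
  obtain ⟨h0, h1⟩ := dottie_pos hD
  have hp := Real.pi_pos
  have hp' : (π : ℂ) ≠ 0 := ofReal_ne_zero.2 hp.ne'
  have e : Real.sin D = -Real.cos (D + π / 2) := by rw [Real.cos_add_pi_div_two, neg_neg]
  have hs : Real.sin (D + π / 2) = D := by rw [Real.sin_add_pi_div_two, hD]
  rw [e, int_sg_mul (by linarith) (by linarith)]
  generalize hτ : D + π / 2 = τ at hs
  have h2 : Complex.sin τ = D := by rw [← ofReal_sin, hs]
  have h3 : cexp (τ * I) - cexp (-(τ * I)) = 2 * D * I := by
    rw [← neg_mul, exp_mul_I, exp_mul_I, Complex.cos_neg, Complex.sin_neg, h2]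
    ring
  obtain rfl | rfl | rfl : m = 0 ∨ m = 1 ∨ m = -1 := by omega
  · simp only [Int.cast_zero, zero_mul, Complex.exp_zero, intervalIntegral.integral_const,
      real_smul, ← hτ]
    push_cast
    field_simp
    ring
  · rw [integral_exp_mul_complex (by simp), integral_exp_mul_complex (by simp)]
    push_cast
    rw [show (1 * I * (2 * π - τ) : ℂ) = -(τ * I) + 2 * π * I by ring, exp_periodic,
      show (1 * I * τ : ℂ) = τ * I by ring, show (1 * I * -τ : ℂ) = -(τ * I) by ring]
    field_simp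
    linear_combination 2 * h3
  · rw [integral_exp_mul_complex (by simp), integral_exp_mul_complex (by simp)]
    push_cast
    rw [show (-1 * I * (2 * π - τ) : ℂ) = τ * I - 2 * π * I by ring, exp_periodic.sub_eq,
      show (-1 * I * τ : ℂ) = -(τ * I) by ring, show (-1 * I * -τ : ℂ) = τ * I by ring]
    field_simp
    linear_combination 2 * h3

lemma integrable_sg (κ : ℝ) (m : ℤ) :
    Integrable (fun x => (sg κ (zz x) : ℂ) * zz x ^ m) mu := by
  refine (integrable_const (1 : ℝ)).mono' ?_ (.of_forall fun x => ?_)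
  · exact ((measurable_ofReal.comp ((measurable_sg _).comp continuous_zz.measurable)).mul
      (continuous_zpow m).measurable).aestronglyMeasurable
  · rw [norm_mul, norm_real, Real.norm_eq_abs, abs_sg, norm_zpow, norm_zz, one_zpow, one_mul]

lemma int_abs {D : ℝ} (hD : Real.cos D = D) :
    ∫ x, |(zz x).re + Real.sin D| ∂mu = (1 + Real.sin D) * (2 * D / π) := by
  apply ofReal_injective
  have e : ∀ x, ((|(zz x).re + Real.sin D| : ℝ) : ℂ) =
      2⁻¹ * ((sg (Real.sin D) (zz x) : ℂ) * zz x ^ (1 : ℤ)) +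
        (2⁻¹ * ((sg (Real.sin D) (zz x) : ℂ) * zz x ^ (-1 : ℤ)) +
          (Real.sin D : ℂ) * ((sg (Real.sin D) (zz x) : ℂ) * zz x ^ (0 : ℤ))) := by
    intro x
    rw [← sg_mul, ofReal_mul, ofReal_add, re_eq_add_conj, conj_zz, zpow_one, zpow_neg_one,
      zpow_zero]
    ring
  have i1 := (integrable_sg (Real.sin D) 1).const_mul (2⁻¹ : ℂ)
  have i2 := (integrable_sg (Real.sin D) (-1)).const_mul (2⁻¹ : ℂ)
  have i3 := (integrable_sg (Real.sin D) 0).const_mul (Real.sin D : ℂ)
  rw [← integral_complex_ofReal]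
  simp_rw [e]
  rw [integral_add i1 (by exact i2.add i3), integral_add i2 i3, integral_const_mul, integral_const_mul,
    integral_const_mul, int_sg hD (by simp), int_sg hD (by simp), int_sg hD (by simp)]
  push_cast
  ring

end Pool.Agent.Lib.MP_becf51_an
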