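import Pool.Agent.Lib.MP_becf51_an.Sign
import Pool.Agent.Lib.MP_becf51_an.Ext

/-! The upper bound: a symbol of norm about `π / (2 D)` times the norm of the matrix. -/

namespace Pool.Agent.Lib.MP_becf51_an

open MeasureTheory AddCircle Complex Real Finset Matrix
open scoped ComplexConjugate InnerProductSpace ENNReal

/-- The bounded factor of the reproducing kernel. -/
noncomputable def gg (D : ℝ) (x : UnitAddCircle) : ℂ :=
  ((π / (2 * D) : ℝ) : ℂ) * (sg (Real.sin D) (zz x) : ℂ)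

lemma measurable_gg (D : ℝ) : Measurable (gg D) :=
  (measurable_ofReal.comp ((measurable_sg _).comp continuous_zz.measurable)).const_mul _

lemma norm_gg {D : ℝ} (hD : Real.cos D = D) (x : UnitAddCircle) : ‖gg D x‖ = π / (2 * D) := by
  have := (dottie_pos hD).1
  have := Real.pi_pos
  rw [gg, norm_mul, norm_real, norm_real, Real.norm_eq_abs (sg _ _), abs_sg, mul_one,
    Real.norm_of_nonneg (by positivity)]

lemma int_gg {D : ℝ} (hD : Real.cos D = D) {n : ℕ} (hn : n ≠ 0) {q : ℤ} (hq : q.natAbs ≤ 1) :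
    ∫ y, gg D ((n : ℤ) • y) * zz y ^ ((n : ℤ) * q) ∂mu = 1 := by
  have h0 := (dottie_pos hD).1
  have hp := Real.pi_pos
  have h := int_dil hn (G := fun y => gg D y * zz y ^ q)
    ((measurable_gg D).mul (continuous_zpow q).measurable).aestronglyMeasurable
  simp only [zz_zsmul, ← _root_.zpow_mul] at h
  rw [h]
  simp only [gg, mul_assoc]
  rw [integral_const_mul, int_sg hD hq, ← ofReal_mul, ← ofReal_one]
  congr 1
  field_simp

lemma integrable_gg {D : ℝ} (hD : Real.cos D = D) (n : ℤ) :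
    Integrable (fun y => gg D (n • y)) mu :=
  (integrable_const (π / (2 * D))).mono'
    ((measurable_gg D).comp (by fun_prop)).aestronglyMeasurable
    (.of_forall fun y => (norm_gg hD _).le)

lemma kernel_coeff {D : ℝ} (hD : Real.cos D = D) {N : ℕ} {m : ℤ} (hm : m.natAbs ≤ N) :
    ∫ y, gg D (((N + 1 : ℕ) : ℤ) • y) * fej (N + 1) (fun _ => 1) y * zz y ^ (-m) ∂mu = 1 := by
  simp only [mul_assoc]
  rw [int_mul_fej (integrable_gg hD _), sum_comm]
  have h : ∀ k ∈ range (N + 1), ∑ j ∈ range (N + 1),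
      1 * ∫ y, gg D (((N + 1 : ℕ) : ℤ) • y) * zz y ^ ((j : ℤ) - k + -m) ∂mu = 1 := by
    intro k hk
    rw [mem_range] at hk
    obtain ⟨j₀, q, hj, hq, e⟩ : ∃ (j₀ : ℕ) (q : ℤ), j₀ < N + 1 ∧ q.natAbs ≤ 1 ∧
        (j₀ : ℤ) - k + -m = ((N + 1 : ℕ) : ℤ) * q := by
      rcases lt_or_ge ((k : ℤ) + m) 0 with h | h
      · exact ⟨(k + m + (N + 1)).toNat, 1, by omega, by simp, by push_cast; omega⟩
      · rcases lt_or_ge ((k : ℤ) + m) (N + 1) with h' | h'
        · exact ⟨(k + m).toNat, 0, by omega, by simp, by push_cast; omega⟩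
        · exact ⟨(k + m - (N + 1)).toNat, -1, by omega, by simp, by push_cast; omega⟩
    rw [sum_eq_single j₀, e, int_gg hD (Nat.succ_ne_zero N) hq, one_mul]
    · intro j hj' hne
      rw [mem_range] at hj'
      rw [int_dil_zero (Nat.succ_ne_zero N), mul_zero]
      intro hd
      have h1 : ((N + 1 : ℕ) : ℤ) ∣ (j : ℤ) - j₀ := by
        have := dvd_sub hd (Dvd.intro q e.symm)
        rwa [show (j : ℤ) - k + -m - ((j₀ : ℤ) - k + -m) = j - j₀ by ring] at this
      have := Int.eq_zero_of_dvd_of_natAbs_lt_natAbs h1 (by omega)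
      omega
    · intro h
      exact absurd (mem_range.2 hj) h
  rw [sum_congr rfl h, sum_const, card_range, nsmul_eq_mul, mul_one,
    inv_mul_cancel₀ (Nat.cast_ne_zero.2 (Nat.succ_ne_zero N))]

lemma conv_bound {D : ℝ} (hD : Real.cos D = D) {N M : ℕ} (hM : M ≠ 0) {b c : ℤ → ℂ} {r : ℝ}
    (hb : ∀ x, ((‖fej M b x‖ : ℝ) : ℂ) = fej M b x) (hc : ∀ x, ((‖fej M c x‖ : ℝ) : ℂ) = fej M c x)
    (h : ∀ m : ℤ, m.natAbs ≤ N → b m + c m = if m = 0 then ((2 * r : ℝ) : ℂ) else 0)
    (x : UnitAddCircle) :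
    ‖∫ y, gg D (((N + 1 : ℕ) : ℤ) • y) * fej (N + 1) (fun _ => 1) y *
      fej M (fun m => b m - c m) (x - y) ∂mu‖ ≤ π / (2 * D) * (2 * r) := by
  have h0 := (dottie_pos hD).1
  have hp := Real.pi_pos
  have c1 := continuous_fej (N + 1) (fun _ => 1)
  have c2 := continuous_fej M b
  have c3 := continuous_fej M c
  have e : ∫ y, ‖fej (N + 1) (fun _ => 1) y‖ * (‖fej M b (x - y)‖ + ‖fej M c (x - y)‖) ∂mu =
      2 * r := by
    apply ofReal_injective
    rw [← integral_complex_ofReal]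
    simp only [ofReal_mul, ofReal_add, hb, hc, fej_one_pos, ← fej_add]
    rw [fej_conv (integrable_of_continuous c1), ← ofReal_mul, ← fej_delta hM ((2 * r : ℝ) : ℂ) x]
    congr 1
    ext m
    rw [fej_coeff]
    by_cases hm : m.natAbs ≤ N
    · rw [h m hm]
      split_ifs with h1
      · rw [h1, one_mul, Int.natAbs_zero, Nat.sub_zero,
          div_self (Nat.cast_ne_zero.2 (Nat.succ_ne_zero N)), mul_one]
      · rw [zero_mul]
    · rw [if_neg (by omega), show N + 1 - m.natAbs = 0 by omega]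
      simp
  rw [← e, ← integral_const_mul]
  refine norm_integral_le_of_norm_le (integrable_of_continuous (by fun_prop))
    (.of_forall fun y => ?_)
  rw [norm_mul, norm_mul, norm_gg hD, mul_assoc, fej_sub]
  gcongr
  exact norm_sub_le _ _

theorem exists_symbol_le {D : ℝ} (hD : Real.cos D = D) {N : ℕ}
    (A : Matrix (Fin (N + 1)) (Fin (N + 1)) ℂ) (hA : A.IsHermitian)
    (hT : ∃ a : ℤ → ℂ, ∀ j k : Fin (N + 1), A j k = a ((j : ℤ) - (k : ℤ))) {δ : ℝ} (hδ : 0 < δ) :
    ∃ f : Lp ℂ ∞ mu, (∀ j k : Fin (N + 1), fourierCoeff f ((j : ℤ) - (k : ℤ)) = A j k) ∧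
      ‖f‖ ≤ π / (2 * D) * ‖toEuclideanCLM (n := Fin (N + 1)) (𝕜 := ℂ) A‖ + δ := by
  have h0 := (dottie_pos hD).1
  have hp := Real.pi_pos
  obtain ⟨a, ha⟩ := hT
  obtain ⟨b, e, hb, hb'⟩ := exists_ext A hA ha
  obtain ⟨c, e', hc, hc'⟩ := exists_ext (-A) hA.neg (a := fun m => -a m)
    (fun j k => by rw [neg_apply, ha])
  rw [map_neg, norm_neg] at hc'
  set r := ‖toEuclideanCLM (n := Fin (N + 1)) (𝕜 := ℂ) A‖ with hr
  set S : ℝ := ∑ m ∈ Icc (-(N : ℤ)) N, ‖a m‖ * m.natAbs with hS
  obtain ⟨M, hM⟩ := exists_nat_gt (max (S / δ) N)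
  have hM1 : N < M := by exact_mod_cast (le_max_right _ _).trans_lt hM
  have hM0 : M ≠ 0 := by omega
  have hM2 : (0 : ℝ) < M := by positivity
  have hM3 : (M : ℂ) ≠ 0 := Nat.cast_ne_zero.2 hM0
  let K : UnitAddCircle → ℂ := fun y => gg D (((N + 1 : ℕ) : ℤ) • y) * fej (N + 1) (fun _ => 1) y
  have hK : Integrable K mu :=
    (integrable_gg hD _).mul_bdd (c := ‖(⟨_, continuous_fej (N + 1) fun _ => 1⟩ :
      C(UnitAddCircle, ℂ))‖) (continuous_fej _ _).aestronglyMeasurable
      (.of_forall fun y => ContinuousMap.norm_coe_le_norm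
        (⟨_, continuous_fej (N + 1) fun _ => 1⟩ : C(UnitAddCircle, ℂ)) y)
  let d : ℤ → ℂ := fun m => (b m - c m) * ∫ y, K y * zz y ^ (-m) ∂mu
  have c1 := continuous_fej M d
  have c2 : Continuous fun x => ∑ m ∈ Icc (-(N : ℤ)) N, a m * m.natAbs / M * zz x ^ m :=
    continuous_finsetSum _ fun m _ => continuous_const.mul (continuous_zpow m)
  let g : C(UnitAddCircle, ℂ) :=
    ⟨fun x => 2⁻¹ * fej M d x + ∑ m ∈ Icc (-(N : ℤ)) N, a m * m.natAbs / M * zz x ^ m,
      (continuous_const.mul c1).add c2⟩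
  have hg := ContinuousMap.coeFn_toLp (p := ∞) (μ := mu) (𝕜 := ℂ) g
  refine ⟨ContinuousMap.toLp ∞ mu ℂ g, fun j k => ?_, ?_⟩
  · rw [fourierCoeff_congr_ae hg, ha]
    obtain ⟨m, hm, hm'⟩ : ∃ m : ℤ, (j : ℤ) - (k : ℤ) = m ∧ m.natAbs ≤ N := ⟨_, rfl, by omega⟩
    rw [hm, ← neg_neg m, ← coeff_eq, neg_neg]
    have e1 : ∀ x, zz x ^ (-m) * g x = 2⁻¹ * (fej M d x * zz x ^ (-m)) +
        ∑ l ∈ Icc (-(N : ℤ)) N, a l * l.natAbs / M * zz x ^ (l + -m) := by
      intro x
      simp only [g, ContinuousMap.coe_mk, mul_add, mul_sum, zpow_add₀ (zz_ne x)]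
      congr 1
      · ring
      · exact sum_congr rfl fun l _ => by ring
    have i1 : ∀ l : ℤ, Integrable (fun x => a l * l.natAbs / M * zz x ^ (l + -m)) mu := fun l =>
      (integrable_of_continuous (continuous_zpow _)).const_mul _
    have i2 : Integrable (fun x => 2⁻¹ * (fej M d x * zz x ^ (-m))) mu :=
      (integrable_of_continuous (c1.mul (continuous_zpow _))).const_mul _
    simp_rw [e1]
    rw [integral_add i2 (integrable_finsetSum _ fun l _ => i1 l), integral_const_mul, fej_coeff,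
      integral_finsetSum _ fun l _ => i1 l]
    simp only [integral_const_mul, int_zpow]
    rw [sum_eq_single m, if_pos (add_neg_cancel m)]
    · simp only [d, K]
      rw [kernel_coeff hD hm', hb' m hm', hc' m hm', Nat.cast_sub (by omega)]
      field_simp
      ring
    · intro l _ hl
      rw [if_neg (by omega), mul_zero]
    · intro h
      exact absurd (mem_Icc.2 ⟨by omega, by omega⟩) h
  · have := Lp.norm_le_of_ae_bound (f := ContinuousMap.toLp ∞ mu ℂ g)
      (C := π / (2 * D) * r + δ) (by positivity) (by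
        filter_upwards [hg] with x hx
        rw [hx]
        refine (norm_add_le _ _).trans (add_le_add ?_ ?_)
        · have h1 := conv_bound hD hM0 (r := r) (fej_pos hb M) (fej_pos hc M) (fun m hm => by
            rw [hb' m hm, hc' m hm]
            split_ifs
            · push_cast
              ring
            · ring) x
          rw [fej_conv hK] at h1
          rw [norm_mul, norm_inv, Complex.norm_two]
          linarith
        · refine (norm_sum_le _ _).trans ?_
          simp only [norm_mul, norm_div, norm_zpow, norm_zz, _root_.one_zpow, mul_one,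
            Complex.norm_natCast]
          rw [← sum_div, ← hS, div_le_iff₀ hM2, ← div_le_iff₀' hδ]
          exact ((le_max_left _ _).trans_lt hM).le)
    simpa using this

end Pool.Agent.Lib.MP_becf51_an
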